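import Pool.Agent.V8H16.TC.Refl

set_option autoImplicit false

/-!
# There is no cyclic set of points in normal position
-/

namespace Pool.Agent.V8H16.TC

theorem exists_min {P : ℕ → Prop} (hP : ∃ x, P x) : ∃ m, P m ∧ ∀ x, P x → m ≤ x := by
  classical
  exact ⟨Nat.find hP, Nat.find_spec hP, fun x hx => Nat.find_min' hP hx⟩

theorem exists_max {P : ℕ → Prop} (hP : ∃ x, P x) (N : ℕ) (hb : ∀ x, P x → x ≤ N) :
    ∃ m, P m ∧ ∀ x, P x → x ≤ m := by
  obtain ⟨m, hm, hm2⟩ := exists_min (P := fun m => ∀ x, P x → x ≤ m) ⟨N, hb⟩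
  refine ⟨m, ?_, hm⟩
  by_contra hc
  obtain ⟨x0, hx0⟩ := hP
  have h0 := hm x0 hx0
  have h1 : x0 ≠ m := by
    rintro rfl
    exact hc hx0
  have := hm2 (m - 1) (fun x hx => by
    have h2 := hm x hx
    have h3 : x ≠ m := by
      rintro rfl
      exact hc hx
    omega)
  omega

namespace Nrm

variable {p q l : ℕ} {S : ℕ → ℕ → Prop}

/-- closed windows with an outside point do not exist -/
theorem win (h : Nrm p q l S) {i0 i1 j0 j1 r t : ℕ} (hi : i1 ≤ p) (hj : j1 ≤ q)
    (hr : ∀ i x, i0 < i → i < i1 → S i x → j0 ≤ x ∧ x ≤ j1)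
    (hc : ∀ i x, j0 < x → x < j1 → S i x → i0 ≤ i ∧ i ≤ i1)
    (hs : S r t)
    (ho : (∀ i x, S i x → i0 ≤ i → i ≤ i1 → j0 ≤ x → x ≤ j1 → r < i ∧ t < x) ∨
      (∀ i x, S i x → i0 ≤ i → i ≤ i1 → j0 ≤ x → x ≤ j1 → i < r ∧ x < t) ∨
      (∀ i x, S i x → i0 ≤ i → i ≤ i1 → j0 ≤ x → x ≤ j1 → r < i ∧ x < t))
    (h1 : i0 < i1) (h2 : j0 < j1) (h3 : i0 + 3 ≤ i1 ∨ j0 + 3 ≤ j1) : False := by
  classical
  let W : Finset (ℕ × ℕ) := (Finset.range p ×ˢ Finset.range q).filter
    (fun a => S a.1 a.2 ∧ i0 ≤ a.1 ∧ a.1 ≤ i1 ∧ j0 ≤ a.2 ∧ a.2 ≤ j1)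
  have hm : ∀ i x, (i, x) ∈ W ↔ (S i x ∧ i0 ≤ i ∧ i ≤ i1 ∧ j0 ≤ x ∧ x ≤ j1) := by
    intro i x
    simp only [W, Finset.mem_filter, Finset.mem_product, Finset.mem_range]
    constructor
    · exact fun a => a.2
    · exact fun a => ⟨h.dom _ _ a.1, a⟩
  have hW : Win W i0 i1 j0 j1 := by
    refine ⟨?_, ?_, ?_, ?_, ?_, ?_⟩
    · intro i x hx
      exact ((hm _ _).1 hx).2
    · intro i a b
      obtain ⟨x, hx⟩ := h.row i (by omega)
      have := hr i x a b hx
      exact ⟨x, (hm _ _).2 ⟨hx, by omega, by omega, this.1, this.2⟩⟩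
    · intro x a b
      obtain ⟨i, hx⟩ := h.col x (by omega)
      have := hc i x a b hx
      exact ⟨i, (hm _ _).2 ⟨hx, this.1, this.2, by omega, by omega⟩⟩
    · intro i x j y a b c
      exact (h.far _ _ _ _ ((hm _ _).1 a).1 ((hm _ _).1 b).1 c).1
    · intro r1 r2 r3 r4 x1 x2 x3 x4 m1 m2 m3 m4 a b c d e f
      obtain ⟨s1, b1, b2, b3, b4⟩ := (hm _ _).1 m1
      obtain ⟨s2, c1, c2, c3, c4⟩ := (hm _ _).1 m2
      obtain ⟨s3, d1, d2, d3, d4⟩ := (hm _ _).1 m3
      obtain ⟨s4, e1, e2, e3, e4⟩ := (hm _ _).1 m4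
      rcases ho with ho | ho | ho
      · have k1 := ho _ _ s1 b1 b2 b3 b4
        have k3 := ho _ _ s3 d1 d2 d3 d4
        exact h.p13524 hs s1 s2 s3 s4 k1.1 a b c k3.2 d e f
      · have k2 := ho _ _ s2 c1 c2 c3 c4
        have k4 := ho _ _ s4 e1 e2 e3 e4
        exact h.p24135 s1 s2 s3 s4 hs a b c k4.1 d e f k2.2
      · have k1 := ho _ _ s1 b1 b2 b3 b4
        have k2 := ho _ _ s2 c1 c2 c3 c4
        exact h.p52413 hs s1 s2 s3 s4 k1.1 a b c d e f k2.2
    · intro r1 r2 r3 r4 x1 x2 x3 x4 m1 m2 m3 m4 a b c d e f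
      obtain ⟨s1, b1, b2, b3, b4⟩ := (hm _ _).1 m1
      obtain ⟨s2, c1, c2, c3, c4⟩ := (hm _ _).1 m2
      obtain ⟨s3, d1, d2, d3, d4⟩ := (hm _ _).1 m3
      obtain ⟨s4, e1, e2, e3, e4⟩ := (hm _ _).1 m4
      rcases ho with ho | ho | ho
      · have k1 := ho _ _ s1 b1 b2 b3 b4
        have k2 := ho _ _ s2 c1 c2 c3 c4
        exact h.q14253 hs s1 s2 s3 s4 k1.1 a b c k2.2 d e f
      · have k3 := ho _ _ s3 d1 d2 d3 d4
        have k4 := ho _ _ s4 e1 e2 e3 e4
        exact h.q31425 s1 s2 s3 s4 hs a b c k4.1 d e f k3.2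
      · have k1 := ho _ _ s1 b1 b2 b3 b4
        have k3 := ho _ _ s3 d1 d2 d3 d4
        exact h.q53142 hs s1 s2 s3 s4 k1.1 a b c d e f k3.2
  exact hW.false h1 h2 h3

/-- there is a pair which straddles a column of the other side -/
theorem d1 (h : Nrm p q l S) : Ta l S ∨ Td l S := by
  by_contra hcon
  have hA : ¬ Ta l S := fun k => hcon (Or.inl k)
  have hD : ¬ Td l S := fun k => hcon (Or.inr k)
  have l3 := h.l3
  have lp := h.lp
  have p2 := h.p2
  have o := h.o
  have ol := h.ol
  have str : ∀ a b n x z v, 0 < a → a < l → 0 < b → b < l → a ≠ b → l < n → S a x → S b z →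
      S n v → x < v → v < z → False := by
    intro a b n x z v a1 a2 a3 a4 a5 a6 s1 s2 s3 b1 b2
    rcases Nat.lt_or_ge a b with g | g
    · exact hA ⟨a, b, n, x, z, v, a1, g, a4, a6, s1, s2, s3, b1, b2⟩
    · exact hD ⟨b, a, n, z, x, v, a3, by omega, a2, a6, s2, s1, s3, b1, b2⟩
  obtain ⟨A, ⟨a, a1, a2, a3⟩, hAm⟩ := exists_min (P := fun x => ∃ i, 0 < i ∧ i < l ∧ S i x) (by
    obtain ⟨x, hx⟩ := h.row 1 (by omega)
    exact ⟨x, 1, by omega, by omega, hx⟩)
  obtain ⟨B, ⟨b, b1, b2, b3⟩, hBm⟩ := exists_max (P := fun x => ∃ i, 0 < i ∧ i < l ∧ S i x) (by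
    obtain ⟨x, hx⟩ := h.row 1 (by omega)
    exact ⟨x, 1, by omega, by omega, hx⟩) q (by
    rintro x ⟨i, _, _, hx⟩
    exact (h.dom _ _ hx).2.le)
  have A1 := h.pos a1 a2 a3
  have Bq := h.dom _ _ b3
  by_cases hv : ∃ n v, l < n ∧ S n v ∧ A < v ∧ v < B
  · obtain ⟨n, v, c1, c2, c3, c4⟩ := hv
    by_cases hab : a = b
    · subst hab
      -- every other row of `U` uses only `v`
      have oth : ∀ c t, 0 < c → c < l → c ≠ a → S c t → t = v := by
        intro c t e1 e2 e3 e4
        rcases Nat.lt_trichotomy t v with g | g | g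
        · exact (str c a n t B v e1 e2 a1 a2 e3 c1 e4 b3 c2 g c4).elim
        · exact g
        · exact (str a c n A t v a1 a2 e1 e2 (Ne.symm e3) c1 a3 e4 c2 c3 g).elim
      obtain ⟨c, e1, e2, e3, e4⟩ : ∃ c, 0 < c ∧ c < l ∧ c ≠ a ∧ nd a c = 1 := by
        unfold nd
        rcases Nat.lt_or_ge (a + 1) l with g | g
        · exact ⟨a + 1, by omega, by omega, by omega, by omega⟩
        · exact ⟨a - 1, by omega, by omega, by omega, by omega⟩
      obtain ⟨t, ht⟩ := h.row c (by omega)
      have et := oth c t e1 e2 e3 ht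
      rw [et] at ht
      have f1 := (h.far _ _ _ _ a3 ht (Or.inl (Ne.symm e3))).1
      have f2 : A + 2 ≤ v := by
        unfold nd at f1 e4
        omega
      obtain ⟨r, hr⟩ := h.col (v - 1) (by omega)
      have g1 : r ≠ 0 := by
        rintro rfl
        have := h.leaf0 o hr
        omega
      have g2 : r ≠ l := by
        rintro rfl
        have := h.leaf0 ol hr
        omega
      rcases Nat.lt_or_ge r l with g3 | g3
      · by_cases g4 : r = a
        · rw [g4] at hr
          have f3 := (h.far _ _ _ _ hr ht (Or.inl (Ne.symm e3))).1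
          unfold nd at f3 e4
          omega
        · have := oth r (v - 1) (by omega) g3 g4 hr
          omega
      · exact str a c r A v (v - 1) a1 a2 e1 e2 (Ne.symm e3) (by omega) a3 ht hr (by omega)
          (by omega)
    · exact str a b n A B v a1 a2 b1 b2 hab c1 a3 b3 c2 c3 c4
  · refine h.win (i0 := 0) (i1 := l) (j0 := A) (j1 := B) (by omega) (by omega) ?_ ?_ o (Or.inl ?_)
      (by omega) ?_ (Or.inl (by omega))
    · intro i x e1 e2 e3
      exact ⟨hAm _ ⟨i, e1, e2, e3⟩, hBm _ ⟨i, e1, e2, e3⟩⟩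
    · intro i x e1 e2 e3
      refine ⟨Nat.zero_le _, ?_⟩
      by_contra g
      exact hv ⟨i, x, by omega, e3, e1, e2⟩
    · intro i x e1 _ _ e2 _
      refine ⟨?_, by omega⟩
      rcases Nat.eq_zero_or_pos i with g | g
      · rw [g] at e1
        have := h.leaf0 o e1
        omega
      · exact g
    · obtain ⟨x, hx⟩ := h.row 1 (by omega)
      obtain ⟨y, hy⟩ := h.row 2 (by omega)
      have k1 := hAm x ⟨1, by omega, by omega, hx⟩
      have k2 := hAm y ⟨2, by omega, by omega, hy⟩
      have k3 := hBm x ⟨1, by omega, by omega, hx⟩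
      have k4 := hBm y ⟨2, by omega, by omega, hy⟩
      have k5 : x ≠ y := by
        rintro rfl
        have := h.uq (by omega) (by omega) hx hy
        omega
      omega

/-- the column `1` is not used on the other side -/
theorem case1 (h : Nrm p q l S) (hd : ¬ Td l S) (c1 : ¬ ∃ n, l < n ∧ S n 1) : False := by
  have l3 := h.l3
  have lp := h.lp
  have p2 := h.p2
  have hq := h.hq
  have o := h.o
  have ol := h.ol
  obtain ⟨v0, ⟨w1, n0, w2, w3⟩, hvm⟩ := exists_min (P := fun v => 0 < v ∧ ∃ n, l < n ∧ S n v) (by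
    obtain ⟨α, β, ν, x, z, v, e1, e2, e3, e4, e5, e6, e7, e8, e9⟩ := h.d1.resolve_right hd
    exact ⟨v, by omega, ν, e4, e7⟩)
  have w4 : v0 ≠ 1 := by
    rintro rfl
    exact c1 ⟨n0, w2, w3⟩
  obtain ⟨r, hr⟩ := h.col 1 (by omega)
  have r1 : r ≠ 0 := by
    rintro rfl
    have := h.leaf0 o hr
    omega
  have r2 : r ≠ l := by
    rintro rfl
    have := h.leaf0 ol hr
    omega
  have r3 : r < l := by
    by_contra g
    exact c1 ⟨r, by omega, hr⟩
  obtain ⟨L, ⟨L1, L2, y0, L3, L4⟩, hLm⟩ := exists_max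
    (P := fun i => 0 < i ∧ i < l ∧ ∃ y, y < v0 ∧ S i y)
    ⟨r, by omega, r3, 1, by omega, hr⟩ l (by
    rintro x ⟨_, h2, _⟩
    exact h2.le)
  have vq := (h.dom _ _ w3).2
  have rows : ∀ i t, 0 < i → i < L → S i t → t ≤ v0 := by
    intro i t e1 e2 e3
    by_contra g
    exact hd ⟨i, L, n0, t, y0, v0, e1, e2, L2, w2, e3, L4, w3, L3, by omega⟩
  have cols : ∀ i x, 0 < x → x < v0 → S i x → i ≤ L := by
    intro i x e1 e2 e3
    have g1 : i ≠ 0 := by
      rintro rfl
      have := h.leaf0 o e3
      omega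
    have g2 : i ≠ l := by
      rintro rfl
      have := h.leaf0 ol e3
      omega
    rcases Nat.lt_or_ge i l with g | g
    · exact hLm i ⟨by omega, g, x, e2, e3⟩
    · have := hvm x ⟨e1, i, by omega, e3⟩
      omega
  -- an outside point
  obtain ⟨s, t, s1, s2, s3⟩ : ∃ s t, l < s ∧ v0 < t ∧ S s t := by
    obtain ⟨t1, h1⟩ := h.row (l + 1) (by omega)
    obtain ⟨t2, h2⟩ := h.row (l + 2) (by omega)
    have f1 := (h.far _ _ _ _ ol h1 (by omega)).1
    have f2 := (h.far _ _ _ _ ol h2 (by omega)).1
    have f3 := (h.far _ _ _ _ h1 h2 (by omega)).1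
    unfold nd at f1 f2 f3
    have k1 := hvm t1 ⟨by omega, l + 1, by omega, h1⟩
    have k2 := hvm t2 ⟨by omega, l + 2, by omega, h2⟩
    rcases Nat.lt_or_ge v0 t1 with g | g
    · exact ⟨l + 1, t1, by omega, g, h1⟩
    · exact ⟨l + 2, t2, by omega, by omega, h2⟩
  refine h.win (i0 := 0) (i1 := L) (j0 := 0) (j1 := v0) (by omega) (by omega) ?_ ?_ s3
    (Or.inr (Or.inl ?_)) (by omega) (by omega) ?_
  · intro i x e1 e2 e3
    exact ⟨Nat.zero_le _, rows i x e1 e2 e3⟩
  · intro i x e1 e2 e3
    exact ⟨Nat.zero_le _, cols i x e1 e2 e3⟩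
  · intro i x _ _ e1 _ e2
    omega
  · by_contra g
    push Not at g
    have g1 := cols r 1 (by omega) (by omega) hr
    have f1 := (h.far _ _ _ _ o hr (by omega)).1
    obtain ⟨t1, h1⟩ := h.row 1 (by omega)
    have f2 := (h.far _ _ _ _ o h1 (by omega)).1
    unfold nd at f1 f2
    have k1 := rows 1 t1 (by omega) (by omega) h1
    have f3 := (h.far _ _ _ _ h1 hr (by omega)).1
    unfold nd at f3
    omega

/-- the column `1` is used on both sides -/
theorem case3 (h : Nrm p q l S) (hd : ¬ Td l S) {r s : ℕ} (r1 : 0 < r) (r2 : r < l)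
    (r3 : S r 1) (s1 : l < s) (s2 : S s 1) : False := by
  have l3 := h.l3
  have lp := h.lp
  have p2 := h.p2
  have hq := h.hq
  have o := h.o
  have ol := h.ol
  have sp := (h.dom _ _ s2).1
  have f1 : 2 ≤ r := by
    have f1 := (h.far _ _ _ _ o r3 (by omega)).1
    unfold nd at f1
    omega
  have f2 : r + 2 ≤ l := by
    have f1 := (h.far _ _ _ _ ol r3 (by omega)).1
    unfold nd at f1
    omega
  have f3 : l + 2 ≤ s := by
    have f1 := (h.far _ _ _ _ ol s2 (by omega)).1
    unfold nd at f1
    omega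
  have f4 : s + 2 ≤ p := by
    have f1 := (h.far _ _ _ _ o s2 (by omega)).2.1
    unfold nd at f1
    omega
  obtain ⟨x', hx⟩ := h.row 1 (by omega)
  obtain ⟨y', hy⟩ := h.row (p - 1) (by omega)
  have f5 : 2 ≤ x' := by
    have f1 := (h.far _ _ _ _ o hx (by omega)).1
    unfold nd at f1
    omega
  have dy := (h.dom _ _ hy).2
  have f6 : 2 ≤ y' ∧ y' + 2 ≤ q := by
    have f1 := (h.far _ _ _ _ o hy (by omega)).2
    unfold nd at f1
    omega
  have xy : x' < y' := by
    rcases Nat.lt_trichotomy x' y' with g | g | g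
    · exact g
    · have f1 := (h.far _ _ _ _ hx hy (by omega)).2.1
      unfold nd at f1
      omega
    · exact (hd ⟨1, r, p - 1, x', 1, y', by omega, by omega, r2, by omega, hx, r3, hy, by omega,
        g⟩).elim
  have rows : ∀ ρ t, 1 < ρ → ρ < s → S ρ t → t ≤ y' := by
    intro ρ t e1 e2 e3
    by_contra g
    exact h.p13524 o hx e3 s2 hy (by omega) e1 e2 (by omega) (by omega) (by omega) xy (by omega)
  -- the column `q - 1`
  obtain ⟨τ, hτ⟩ := h.col (q - 1) (by omega)
  have dτ := (h.dom _ _ hτ).1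
  have t1 : s < τ := by
    have g1 : τ ≠ 0 := by
      rintro rfl
      have := h.leaf0 o hτ
      omega
    have g2 : τ ≠ 1 := by
      rintro rfl
      have f1 := (h.far _ _ _ _ o hτ (by omega)).2.2.1
      unfold nd at f1
      omega
    have g3 : τ ≠ s := by
      rintro rfl
      exact h.ends s2 hτ
    by_contra g
    have := rows τ (q - 1) (by omega) (by omega) hτ
    omega
  -- the row `l + 1`
  have hl1 : S (l + 1) x' := by
    obtain ⟨t, ht⟩ := h.row (l + 1) (by omega)
    have f1 : 2 ≤ t := by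
      have f1 := (h.far _ _ _ _ ol ht (by omega)).1
      unfold nd at f1
      omega
    have k1 := rows _ _ (by omega) (by omega) ht
    rcases Nat.lt_trichotomy t x' with g | g | g
    · exact (hd ⟨1, r, l + 1, x', 1, t, by omega, by omega, r2, by omega, hx, r3, ht, by omega,
        g⟩).elim
    · rw [g] at ht
      exact ht
    · rcases Nat.lt_trichotomy t y' with g' | g' | g'
      · exact (h.q31425 hx ol ht s2 hy (by omega) (by omega) (by omega) (by omega) (by omega)
          (by omega) g g').elim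
      · exact (h.q31425 hx ol ht s2 hτ (by omega) (by omega) (by omega) t1 (by omega)
          (by omega) g (by omega)).elim
      · omega
  -- the row `l - 1`
  obtain ⟨t, ht⟩ := h.row (l - 1) (by omega)
  have k0 := h.pos (by omega) (by omega) ht
  have k1 := rows _ _ (by omega) (by omega) ht
  have k2 : t ≠ 1 := by
    rintro rfl
    have := h.uq (by omega) (by omega) ht r3
    omega
  rcases Nat.lt_trichotomy t x' with g | g | g
  · exact h.q31425 ht ol hl1 s2 hτ (by omega) (by omega) (by omega) t1 (by omega) (by omega) g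
      (by omega)
  · rw [g] at ht
    have f1 := (h.far _ _ _ _ ht hl1 (by omega)).1
    unfold nd at f1
    omega
  · rcases Nat.lt_or_ge t y' with g' | g'
    · exact h.p24135 r3 ht ol hl1 hy (by omega) (by omega) (by omega) (by omega) (by omega)
        (by omega) g g'
    · exact h.p24135 r3 ht ol hl1 hτ (by omega) (by omega) (by omega) (by omega) (by omega)
        (by omega) g (by omega)

/-- the column `1` is used on the other side only -/
theorem case2 (h : Nrm p q l S) (hd : ¬ Td l S) (c1 : ∃ n, l < n ∧ S n 1)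
    (c2 : ¬ ∃ r, 0 < r ∧ r < l ∧ S r 1) : False := by
  have l3 := h.l3
  have lp := h.lp
  have p2 := h.p2
  have hq := h.hq
  have o := h.o
  have ol := h.ol
  obtain ⟨u0, ⟨μ, m1, m2, m3⟩, hum⟩ := exists_min (P := fun x => ∃ i, 0 < i ∧ i < l ∧ S i x) (by
    obtain ⟨x, hx⟩ := h.row 1 (by omega)
    exact ⟨x, 1, by omega, by omega, hx⟩)
  have u1 := h.pos m1 m2 m3
  have u2 : u0 ≠ 1 := by
    rintro rfl
    exact c2 ⟨μ, m1, m2, m3⟩
  have uq := (h.dom _ _ m3).2
  obtain ⟨κ, ⟨k1, y, k2, k3, k4⟩, hkm⟩ := exists_min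
    (P := fun k => l < k ∧ ∃ y, 0 < y ∧ y < u0 ∧ S k y) (by
    obtain ⟨n, n1, n2⟩ := c1
    exact ⟨n, n1, 1, by omega, by omega, n2⟩)
  have kp := (h.dom _ _ k4).1
  -- the key statement
  have key : ∀ i w, κ < i → S i w → w ≤ u0 := by
    intro i w e1 e2
    by_contra e3
    obtain ⟨α, β, ν, x, z, v, t1, t2, t3, t4, t5, t6, t7, t8, t9⟩ := h.d1.resolve_right hd
    have A1 : ∀ i w, κ < i → S i w → u0 < w → ∀ ρ t, μ < ρ → ρ < κ → S ρ t → t ≤ w := by
      intro i w e1 e2 e3 ρ t e4 e5 e6
      by_contra e7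
      exact h.p13524 o m3 e6 k4 e2 m1 e4 e5 e1 k2 k3 e3 (by omega)
    have A2 : ∀ i w, κ < i → S i w → u0 < w → ∀ ρ t, l < ρ → ρ < κ → S ρ t → u0 < t → w ≤ t := by
      intro i w e1 e2 e3 ρ t e4 e5 e6 e7
      by_contra e8
      exact h.q31425 m3 ol e6 k4 e2 m2 e4 e5 e1 k2 k3 e7 (by omega)
    have ux := hum x ⟨α, t1, by omega, t5⟩
    have mb : μ ≤ β := by
      by_contra g
      exact hd ⟨β, μ, ν, z, u0, v, by omega, by omega, m2, t4, t6, m3, t7, by omega, t9⟩
    have B0 : ∀ i w, κ < i → S i w → u0 < w → μ < β → z ≤ w := by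
      intro i w e1 e2 e3 e4
      exact A1 i w e1 e2 e3 β z e4 (by omega) t6
    have B1 : ∀ i w, κ < i → S i w → u0 < w → μ = β → x < w → w < z → False := by
      intro i w e1 e2 e3 e4 e5 e6
      exact h.p13524 o t5 t6 k4 e2 t1 t2 (by omega) e1 k2 (by omega) e5 e6
    have nk : ν = κ := by
      rcases Nat.lt_trichotomy ν κ with g | g | g
      · have g1 := A1 i w e1 e2 (by omega) ν v (by omega) g t7
        have g2 := A2 i w e1 e2 (by omega) ν v t4 g t7 (by omega)
        rcases Nat.lt_or_ge μ β with g3 | g3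
        · have := B0 i w e1 e2 (by omega) g3
          omega
        · exact (B1 i w e1 e2 (by omega) (by omega) (by omega) (by omega)).elim
      · exact g
      · rcases Nat.lt_or_ge μ β with g3 | g3
        · have := B0 ν v g t7 (by omega) g3
          omega
        · exact (B1 ν v g t7 (by omega) (by omega) t8 t9).elim
    subst nk
    -- `ν` is a hub
    have hubv : ∀ y, 0 < y → y < u0 → S ν y → ∀ j, S j y → j = ν := by
      intro y _ g1 g2
      rcases h.star _ _ g2 with g | g
      · have := g _ t7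
        omega
      · exact g
    have P1 : ∀ i w, ν < i → S i w → u0 < w → ∀ ρ t, i < ρ → S ρ t → 0 < t → u0 ≤ t := by
      intro i w e1 e2 e3 ρ t e4 e5 e6
      by_contra e7
      rcases Nat.lt_trichotomy t y with g | g | g
      · exact h.p41352 m3 ol k4 e2 e5 m2 t4 e1 e4 e6 g k3 e3
      · rw [g] at e5
        have := hubv y k2 k3 k4 _ e5
        omega
      · exact h.q14253 o m3 k4 e2 e5 m1 (by omega) e1 e4 k2 g (by omega) e3
    have ip := (h.dom _ _ e2).1
    rcases Nat.lt_or_ge μ β with g3 | g3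
    · -- the case `μ < β`
      have W : ∀ i w, ν < i → S i w → u0 < w → w = z := by
        intro i w e1 e2 e3
        have g4 := B0 i w e1 e2 e3 g3
        by_contra g5
        exact h.p24135 m3 t6 ol t7 e2 g3 t3 t4 e1 (by omega) (by omega) t9 (by omega)
      -- the row `p - 1`
      obtain ⟨t, ht⟩ := h.row (p - 1) (by omega)
      have f1 := (h.far _ _ _ _ o ht (by omega)).2
      have dt := (h.dom _ _ ht).2
      have f2 : 2 ≤ t ∧ t + 2 ≤ q := by
        unfold nd at f1
        omega
      have f3 : u0 < t := by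
        rcases Nat.lt_trichotomy i (p - 1) with g | g | g
        · have k5 := P1 i w e1 e2 (by omega) (p - 1) t g ht (by omega)
          have k6 : t ≠ u0 := by
            rintro rfl
            have := h.arcC μ (p - 1) _ m3 ht (by omega)
            omega
          omega
        · -- `i = p - 1` uses `w`, which is used by `β`
          have k5 := W i w e1 e2 (by omega)
          rw [← g] at ht
          by_contra k6
          rcases h.star _ _ e2 with k7 | k7
          · have := k7 _ ht
            omega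
          · rw [← k5] at t6
            have := k7 _ t6
            omega
        · omega
      have f4 := W _ t (by omega) ht f3
      rw [f4] at ht
      have f5 : β + 1 = l := by
        have := h.arcC β (p - 1) z t6 ht (by omega)
        omega
      -- the columns `1` and `q - 1`
      have q1 : S ν 1 := by
        obtain ⟨n, n1, n2⟩ := c1
        have g5 := hkm n ⟨n1, 1, by omega, by omega, n2⟩
        rcases Nat.lt_or_ge ν n with g6 | g6
        · exfalso
          rcases Nat.lt_trichotomy i n with g | g | g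
          · have := P1 i w e1 e2 (by omega) n 1 g n2 (by omega)
            omega
          · have k5 := W i w e1 e2 (by omega)
            subst g
            rcases h.star _ _ e2 with k7 | k7
            · have := k7 _ n2
              omega
            · rw [← k5] at t6
              have := k7 _ t6
              omega
          · have k5 := W i w e1 e2 (by omega)
            subst k5
            exact h.q31425 m3 ol t7 n2 e2 m2 t4 g6 g (by omega) (by omega) (by omega) t9
        · have : n = ν := by omega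
          rw [this] at n2
          exact n2
      obtain ⟨τ, hτ⟩ := h.col (q - 1) (by omega)
      have g6 : τ = μ := by
        have a1 : τ ≠ 0 := by
          rintro rfl
          have := h.leaf0 o hτ
          omega
        have a2 : τ ≠ l := by
          rintro rfl
          have := h.leaf0 ol hτ
          omega
        have a3 : τ ≠ ν := by
          rintro rfl
          exact h.ends q1 hτ
        by_contra a4
        rcases Nat.lt_or_ge τ μ with a5 | a5
        · exact h.p52413 hτ m3 t6 ol t7 a5 g3 t3 t4 (by omega) (by omega) t9 (by omega)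
        · rcases Nat.lt_or_ge τ ν with a6 | a6
          · have := A1 _ _ (by omega) ht (by omega) τ _ (by omega) a6 hτ
            omega
          · have := W τ _ (by omega) hτ (by omega)
            omega
      rw [g6] at hτ
      have hubm : ∀ j, S j u0 → j = μ := by
        rcases h.star _ _ m3 with g | g
        · have := g _ hτ
          omega
        · exact g
      -- the row `l + 1`
      obtain ⟨t', ht'⟩ := h.row (l + 1) (by omega)
      have f6 := (h.far _ _ _ _ ol ht' (by omega)).1
      have f7 := (h.far _ _ _ _ ol q1 (by omega)).1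
      unfold nd at f6 f7
      have a1 := A1 _ _ (by omega) ht (by omega) _ _ (by omega) (by omega) ht'
      have a2 : u0 ≤ t' := by
        by_contra a3
        have := hkm (l + 1) ⟨by omega, t', by omega, by omega, ht'⟩
        omega
      have a3 : t' ≠ u0 := by
        rintro rfl
        have := hubm _ ht'
        omega
      have a4 := A2 _ _ (by omega) ht (by omega) _ _ (by omega) (by omega) ht' (by omega)
      have a5 : t' = z := by omega
      rw [a5] at ht'
      have := h.arcC β (l + 1) z t6 ht' (by omega)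
      omega
    · -- the case `μ = β`
      have g4 : μ = β := by omega
      subst g4
      have hub : ∀ j, S j u0 → j = μ := by
        rcases h.star _ _ m3 with g | g
        · have := g _ t6
          omega
        · exact g
      have hubz : ∀ j, S j z → j = μ := by
        rcases h.star _ _ t6 with g | g
        · have := g _ m3
          omega
        · exact g
      have W : ∀ i w, ν < i → S i w → u0 < w → w = x := by
        intro i w e1 e2 e3
        rcases Nat.lt_trichotomy w x with g | g | g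
        · exact (hd ⟨α, μ, i, x, u0, w, t1, t2, t3, by omega, t5, m3, e2, e3, g⟩).elim
        · exact g
        · rcases Nat.lt_trichotomy w z with g' | g' | g'
          · exact (B1 i w e1 e2 e3 rfl g g').elim
          · rw [g'] at e2
            have := hubz _ e2
            omega
          · exact (h.p24135 t5 t6 ol t7 e2 t2 t3 t4 e1 (by omega) t8 t9 g').elim
      obtain ⟨t, ht⟩ := h.row (p - 1) (by omega)
      have f1 := (h.far _ _ _ _ o ht (by omega)).2
      have dt := (h.dom _ _ ht).2
      have f2 : 2 ≤ t ∧ t + 2 ≤ q := by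
        unfold nd at f1
        omega
      have f3 : u0 < t ∨ i = p - 1 := by
        rcases Nat.lt_trichotomy i (p - 1) with g | g | g
        · left
          have k5 := P1 i w e1 e2 (by omega) (p - 1) t g ht (by omega)
          have k6 : t ≠ u0 := by
            rintro rfl
            have := hub _ ht
            omega
          omega
        · exact Or.inr g
        · omega
      have f4 : S (p - 1) x := by
        rcases f3 with f3 | f3
        · have := W _ t (by omega) ht f3
          rw [this] at ht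
          exact ht
        · have := W _ w e1 e2 (by omega)
          rw [this, f3] at e2
          exact e2
      have := h.arcC α (p - 1) x t5 f4 (by omega)
      omega
  -- the window
  obtain ⟨s, t, s0, s1, s2, s3⟩ : ∃ s t, 0 < s ∧ s < l ∧ u0 < t ∧ S s t := by
    obtain ⟨t1, h1⟩ := h.row 1 (by omega)
    obtain ⟨t2, h2⟩ := h.row 2 (by omega)
    have k5 := hum t1 ⟨1, by omega, by omega, h1⟩
    have k6 := hum t2 ⟨2, by omega, by omega, h2⟩
    rcases Nat.lt_or_ge u0 t1 with g | g
    · exact ⟨1, t1, by omega, by omega, g, h1⟩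
    · refine ⟨2, t2, by omega, by omega, ?_, h2⟩
      have : t1 ≠ t2 := by
        rintro rfl
        have := h.uq (by omega) (by omega) h1 h2
        omega
      omega
  have cols : ∀ i x, 0 < x → x < u0 → S i x → κ ≤ i := by
    intro i x e1 e2 e3
    have g1 : i ≠ 0 := by
      rintro rfl
      have := h.leaf0 o e3
      omega
    have g2 : i ≠ l := by
      rintro rfl
      have := h.leaf0 ol e3
      omega
    rcases Nat.lt_or_ge i l with g | g
    · have := hum x ⟨i, by omega, g, e3⟩
      omega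
    · exact hkm i ⟨by omega, x, e1, e2, e3⟩
  refine h.win (i0 := κ) (i1 := p) (j0 := 0) (j1 := u0) le_rfl (by omega) ?_ ?_ s3
    (Or.inr (Or.inr ?_)) kp (by omega) ?_
  · intro i x e1 e2 e3
    exact ⟨Nat.zero_le _, key i x e1 e3⟩
  · intro i x e1 e2 e3
    exact ⟨cols i x e1 e2 e3, (h.dom _ _ e3).1.le⟩
  · intro i x _ e1 _ _ e2
    omega
  · by_contra g
    push Not at g
    obtain ⟨r, hr⟩ := h.col 1 (by omega)
    have g1 := cols r 1 (by omega) (by omega) hr
    have g2 := (h.dom _ _ hr).1
    have f1 := (h.far _ _ _ _ o hr (by omega)).2.1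
    obtain ⟨t1, h1⟩ := h.row (p - 1) (by omega)
    have f2 := (h.far _ _ _ _ o h1 (by omega)).2.1
    unfold nd at f1 f2
    have k1 := key (p - 1) t1 (by omega) h1
    have f3 := (h.far _ _ _ _ h1 hr (by omega)).1
    unfold nd at f3
    omega

theorem no_desc (h : Nrm p q l S) (hd : ¬ Td l S) : False := by
  by_cases c1 : ∃ n, l < n ∧ S n 1
  · by_cases c2 : ∃ r, 0 < r ∧ r < l ∧ S r 1
    · obtain ⟨n, n1, n2⟩ := c1
      obtain ⟨r, r1, r2, r3⟩ := c2
      exact h.case3 hd r1 r2 r3 n1 n2
    · exact h.case2 hd c1 c2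
  · exact h.case1 hd c1

/-- **There is no cyclic set of points in normal position.** -/
theorem false (h : Nrm p q l S) : False := by
  by_cases hd : Td l S
  · have ha : ¬ Ta l S := fun ha => h.e2 ha hd
    refine h.colRefl.no_desc ?_
    rintro ⟨α, β, n, x, z, v, a1, a2, a3, a4, ⟨h1, h2⟩, ⟨h3, h4⟩, ⟨h5, h6⟩, b1, b2⟩
    have c1 := h.pos a1 (by omega) h2
    have c2 := h.pos (by omega) a3 h4
    have c3 : 0 < z := by
      rcases Nat.eq_zero_or_pos z with g | g
      · rw [g] at c2
        simp [cr] at c2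
      · exact g
    refine ha ⟨α, β, n, cr q x, cr q z, cr q v, a1, a2, a3, a4, h2, h4, h6, ?_, ?_⟩ <;>
    · unfold cr
      split_ifs <;> omega
  · exact h.no_desc hd

end Nrm

end Pool.Agent.V8H16.TC
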