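import Pool.Agent.V8H16.TC.Core

set_option autoImplicit false

/-!
# Cyclic sets of points
-/

namespace Pool.Agent.V8H16.TC

/-- A cyclic set of points with `p` rows and `q` columns: every row and every column is used,
there are no two different points at distance at most two on the torus, and no pentagram. -/
structure Cyc (p q : ℕ) (S : ℕ → ℕ → Prop) : Prop where
  dom : ∀ i x, S i x → i < p ∧ x < q
  row : ∀ i, i < p → ∃ x, S i x
  col : ∀ x, x < q → ∃ i, S i x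
  far : ∀ i x j y, S i x → S j y → (i ≠ j ∨ x ≠ y) → 3 ≤ nd i j + nd x y ∧
    3 ≤ (p - nd i j) + nd x y ∧ 3 ≤ nd i j + (q - nd x y) ∧ 3 ≤ (p - nd i j) + (q - nd x y)
  np : ∀ r1 r2 r3 r4 r5 x1 x2 x3 x4 x5, S r1 x1 → S r2 x2 → S r3 x3 → S r4 x4 → S r5 x5 →
    r1 < r2 → r2 < r3 → r3 < r4 → r4 < r5 → ¬ star5 x1 x2 x3 x4 x5
  hp : 5 ≤ p
  hq : 5 ≤ q

/-- every point is alone in its row or in its column -/
def Star (S : ℕ → ℕ → Prop) : Prop :=
  ∀ i x, S i x → (∀ y, S i y → y = x) ∨ (∀ j, S j x → j = i)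

/-- translation modulo `p` -/
def tm (p s i : ℕ) : ℕ := if i + s < p then i + s else i + s - p

theorem tm_lt {p s i : ℕ} (hs : s < p) (hi : i < p) : tm p s i < p := by
  unfold tm
  split_ifs <;> omega

theorem tm_inj {p s i j : ℕ} (hs : s < p) (hi : i < p) (hj : j < p) (h : tm p s i = tm p s j) :
    i = j := by
  unfold tm at h
  split_ifs at h <;> omega

theorem tm_surj {p s i : ℕ} (hs : s < p) (hi : i < p) : ∃ j, j < p ∧ tm p s j = i := by
  rcases Nat.lt_or_ge i s with h | h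
  · refine ⟨i + p - s, by omega, ?_⟩
    unfold tm
    split_ifs <;> omega
  · refine ⟨i - s, by omega, ?_⟩
    unfold tm
    split_ifs <;> omega

theorem nd_tm {p s i j : ℕ} (hs : s < p) (hi : i < p) (hj : j < p) :
    nd (tm p s i) (tm p s j) = nd i j ∨ nd (tm p s i) (tm p s j) + nd i j = p := by
  unfold tm nd
  split_ifs <;> omega

theorem cy_tm_of_lt {p s a b c d e : ℕ} (h1 : a < b) (h2 : b < c) (h3 : c < d) (h4 : d < e)
    (he : e < p) (hs : s < p) :
    cy (tm p s a) (tm p s b) (tm p s c) (tm p s d) (tm p s e) := by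
  unfold cy tm
  split_ifs <;> omega

theorem cy_tm {p s a b c d e : ℕ} (ha : a < p) (hb : b < p) (hc : c < p) (hd : d < p)
    (he : e < p) (hs : s < p) (h : cy a b c d e) :
    cy (tm p s a) (tm p s b) (tm p s c) (tm p s d) (tm p s e) := by
  rcases h with ⟨h1, h2, h3, h4⟩ | ⟨h1, h2, h3, h4⟩ | ⟨h1, h2, h3, h4⟩ | ⟨h1, h2, h3, h4⟩ |
    ⟨h1, h2, h3, h4⟩
  · exact cy_tm_of_lt h1 h2 h3 h4 he hs
  · exact cy_rot4 (cy_tm_of_lt h1 h2 h3 h4 ha hs)
  · exact cy_rot3 (cy_tm_of_lt h1 h2 h3 h4 hb hs)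
  · exact cy_rot2 (cy_tm_of_lt h1 h2 h3 h4 hc hs)
  · exact cy_rot (cy_tm_of_lt h1 h2 h3 h4 hd hs)

namespace Cyc

variable {p q : ℕ} {S : ℕ → ℕ → Prop}

theorem npc (h : Cyc p q S) {r1 r2 r3 r4 r5 x1 x2 x3 x4 x5 : ℕ} (h1 : S r1 x1) (h2 : S r2 x2)
    (h3 : S r3 x3) (h4 : S r4 x4) (h5 : S r5 x5) (hr : cy r1 r2 r3 r4 r5)
    (hs : star5 x1 x2 x3 x4 x5) : False := by
  rcases hr with ⟨a, b, c, d⟩ | ⟨a, b, c, d⟩ | ⟨a, b, c, d⟩ | ⟨a, b, c, d⟩ | ⟨a, b, c, d⟩
  · exact h.np _ _ _ _ _ _ _ _ _ _ h1 h2 h3 h4 h5 a b c d hs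
  · exact h.np _ _ _ _ _ _ _ _ _ _ h2 h3 h4 h5 h1 a b c d (star5_rot hs)
  · exact h.np _ _ _ _ _ _ _ _ _ _ h3 h4 h5 h1 h2 a b c d (star5_rot2 hs)
  · exact h.np _ _ _ _ _ _ _ _ _ _ h4 h5 h1 h2 h3 a b c d (star5_rot3 hs)
  · exact h.np _ _ _ _ _ _ _ _ _ _ h5 h1 h2 h3 h4 a b c d (star5_rot4 hs)

/-- transposition -/
theorem swap (h : Cyc p q S) : Cyc q p (fun x i => S i x) := by
  refine ⟨fun x i hx => (h.dom _ _ hx).symm, h.col, h.row, ?_, ?_, h.hq, h.hp⟩
  · intro x i y j h1 h2 h3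
    have := h.far _ _ _ _ h1 h2 (by tauto)
    omega
  · intro x1 x2 x3 x4 x5 r1 r2 r3 r4 r5 h1 h2 h3 h4 h5 a b c d hs
    rcases hs with hs | hs
    · exact h.npc h1 h4 h2 h5 h3 hs (Or.inr (Or.inl ⟨a, b, c, d⟩))
    · exact h.npc h1 h3 h5 h2 h4 hs (Or.inl (Or.inl ⟨a, b, c, d⟩))

/-- translation -/
theorem trans (h : Cyc p q S) {s t : ℕ} (hs : s < p) (ht : t < q) :
    Cyc p q (fun i x => i < p ∧ x < q ∧ S (tm p s i) (tm q t x)) := by
  refine ⟨fun i x hx => ⟨hx.1, hx.2.1⟩, ?_, ?_, ?_, ?_, h.hp, h.hq⟩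
  · intro i hi
    obtain ⟨x, hx⟩ := h.row _ (tm_lt hs hi)
    obtain ⟨y, hy, rfl⟩ := tm_surj ht (h.dom _ _ hx).2
    exact ⟨y, hi, hy, hx⟩
  · intro x hx
    obtain ⟨i, hi⟩ := h.col _ (tm_lt ht hx)
    obtain ⟨j, hj, rfl⟩ := tm_surj hs (h.dom _ _ hi).1
    exact ⟨j, hj, hx, hi⟩
  · rintro i x j y ⟨h1, h2, h3⟩ ⟨h4, h5, h6⟩ h7
    have h8 : tm p s i ≠ tm p s j ∨ tm q t x ≠ tm q t y := by
      rcases h7 with h7 | h7
      · exact Or.inl fun he => h7 (tm_inj hs h1 h4 he)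
      · exact Or.inr fun he => h7 (tm_inj ht h2 h5 he)
    have h9 := h.far _ _ _ _ h3 h6 h8
    have k1 := nd_tm hs h1 h4
    have k2 := nd_tm ht h2 h5
    have k3 : nd i j ≤ p := by unfold nd; omega
    have k4 : nd x y ≤ q := by unfold nd; omega
    rcases k1 with k1 | k1 <;> rcases k2 with k2 | k2 <;> omega
  · rintro r1 r2 r3 r4 r5 x1 x2 x3 x4 x5 ⟨e1, f1, g1⟩ ⟨e2, f2, g2⟩ ⟨e3, f3, g3⟩ ⟨e4, f4, g4⟩
      ⟨e5, f5, g5⟩ a b c d hx
    refine h.npc g1 g2 g3 g4 g5 (cy_tm_of_lt a b c d e5 hs) ?_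
    rcases hx with hx | hx
    · exact Or.inl (cy_tm f1 f4 f2 f5 f3 ht hx)
    · exact Or.inr (cy_tm f1 f3 f5 f2 f4 ht hx)

theorem star_trans (h : Star S) {s t : ℕ} (hs : s < p) (ht : t < q) :
    Star (fun i x => i < p ∧ x < q ∧ S (tm p s i) (tm q t x)) := by
  rintro i x ⟨h1, h2, h3⟩
  rcases h _ _ h3 with h4 | h4
  · left
    rintro y ⟨_, h5, h6⟩
    exact tm_inj ht h5 h2 (h4 _ h6)
  · right
    rintro j ⟨h5, _, h6⟩
    exact tm_inj hs h5 h1 (h4 _ h6)

/-- a minimal subset consists of stars -/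
theorem exists_star (n : ℕ) : ∀ F : Finset (ℕ × ℕ), F.card ≤ n → Cyc p q (fun i x => (i, x) ∈ F) →
    ∃ S, Cyc p q S ∧ Star S := by
  classical
  induction n with
  | zero =>
    intro F hF h
    have h1 : F = ∅ := Finset.card_eq_zero.1 (by omega)
    obtain ⟨x, hx⟩ := h.row 0 (by have := h.hp; omega)
    rw [h1] at hx
    simp at hx
  | succ n ih =>
    intro F hF h
    by_cases hst : Star (fun i x => (i, x) ∈ F)
    · exact ⟨_, h, hst⟩
    · unfold Star at hst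
      push Not at hst
      obtain ⟨i, x, h1, ⟨y, h2, h3⟩, ⟨j, h4, h5⟩⟩ := hst
      have hc := Finset.card_erase_lt_of_mem h1
      refine ih (F.erase (i, x)) (by omega) ?_
      have hm : ∀ a b, (a, b) ∈ F.erase (i, x) → (a, b) ∈ F := fun a b =>
        Finset.mem_of_mem_erase
      refine ⟨fun a b hab => h.dom _ _ (hm _ _ hab), ?_, ?_, ?_, ?_, h.hp, h.hq⟩
      · intro a ha
        by_cases hai : a = i
        · exact ⟨y, Finset.mem_erase.2 ⟨by simp [h3], by rw [hai]; exact h2⟩⟩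
        · obtain ⟨b, hb⟩ := h.row a ha
          exact ⟨b, Finset.mem_erase.2 ⟨by simp [hai], hb⟩⟩
      · intro b hb
        by_cases hbx : b = x
        · exact ⟨j, Finset.mem_erase.2 ⟨by simp [h5], by rw [hbx]; exact h4⟩⟩
        · obtain ⟨a, ha⟩ := h.col b hb
          exact ⟨a, Finset.mem_erase.2 ⟨by simp [hbx], ha⟩⟩
      · intro a b c d h6 h7
        exact h.far _ _ _ _ (hm _ _ h6) (hm _ _ h7)
      · intro r1 r2 r3 r4 r5 x1 x2 x3 x4 x5 m1 m2 m3 m4 m5
        exact h.np _ _ _ _ _ _ _ _ _ _ (hm _ _ m1) (hm _ _ m2) (hm _ _ m3) (hm _ _ m4)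
          (hm _ _ m5)

/-- an isolated point -/
theorem iso (h : Cyc p q S) (h0 : S 0 0) (h1 : ∀ y, S 0 y → y = 0) (h2 : ∀ j, S j 0 → j = 0) :
    False := by
  classical
  let W : Finset (ℕ × ℕ) := (Finset.range p ×ˢ Finset.range q).filter
    (fun a => S a.1 a.2 ∧ 0 < a.1)
  have hm : ∀ i x, (i, x) ∈ W ↔ (S i x ∧ 0 < i) := by
    intro i x
    simp only [W, Finset.mem_filter, Finset.mem_product, Finset.mem_range]
    constructor
    · exact fun a => a.2
    · exact fun a => ⟨h.dom _ _ a.1, a⟩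
  have hx0 : ∀ i x, S i x → 0 < i → 0 < x := by
    intro i x h3 h4
    rcases Nat.eq_zero_or_pos x with h5 | h5
    · rw [h5] at h3
      have := h2 _ h3
      omega
    · exact h5
  have hW : Win W 0 p 0 q := by
    refine ⟨?_, ?_, ?_, ?_, ?_, ?_⟩
    · intro i x hx
      have := h.dom _ _ ((hm _ _).1 hx).1
      omega
    · intro i a b
      obtain ⟨x, hx⟩ := h.row i b
      exact ⟨x, (hm _ _).2 ⟨hx, a⟩⟩
    · intro x a b
      obtain ⟨i, hi⟩ := h.col x b
      refine ⟨i, (hm _ _).2 ⟨hi, ?_⟩⟩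
      rcases Nat.eq_zero_or_pos i with h5 | h5
      · rw [h5] at hi
        have := h1 _ hi
        omega
      · exact h5
    · intro i x j y a b c
      exact (h.far _ _ _ _ ((hm _ _).1 a).1 ((hm _ _).1 b).1 c).1
    · intro r1 r2 r3 r4 x1 x2 x3 x4 m1 m2 m3 m4 a b c d e f
      obtain ⟨s1, t1⟩ := (hm _ _).1 m1
      obtain ⟨s2, t2⟩ := (hm _ _).1 m2
      obtain ⟨s3, t3⟩ := (hm _ _).1 m3
      obtain ⟨s4, t4⟩ := (hm _ _).1 m4
      exact h.np _ _ _ _ _ _ _ _ _ _ h0 s1 s2 s3 s4 t1 a b c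
        (Or.inl (Or.inl ⟨hx0 _ _ s3 t3, d, e, f⟩))
    · intro r1 r2 r3 r4 x1 x2 x3 x4 m1 m2 m3 m4 a b c d e f
      obtain ⟨s1, t1⟩ := (hm _ _).1 m1
      obtain ⟨s2, t2⟩ := (hm _ _).1 m2
      obtain ⟨s3, t3⟩ := (hm _ _).1 m3
      obtain ⟨s4, t4⟩ := (hm _ _).1 m4
      exact h.np _ _ _ _ _ _ _ _ _ _ h0 s1 s2 s3 s4 t1 a b c
        (Or.inr (Or.inl ⟨hx0 _ _ s2 t2, d, e, f⟩))
  have hp := h.hp
  have hq := h.hq
  exact hW.false (by omega) (by omega) (Or.inl (by omega))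

/-- the case of a pair of points in the same column which is closest -/
theorem closest (h : Cyc p q S) (hst : Star S) {i j x l : ℕ} (h1 : S i x) (h2 : S j x)
    (hi : tm p l i = j) (hl : 0 < l) (hl2 : l < p)
    (aC : ∀ i j x, S i x → S j x → i < j → l ≤ j - i ∧ l ≤ p - (j - i))
    (aD : ∀ i x y, S i x → S i y → x < y → l ≤ y - x ∧ l ≤ q - (y - x)) : False := by
  have hp := h.hp
  have hq := h.hq
  have d1 := h.dom _ _ h1
  have d2 := h.dom _ _ h2
  have e0 : tm p i 0 = i := by unfold tm; simp [d1.1]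
  have e1 : tm q x 0 = x := by unfold tm; simp [d1.2]
  have e2 : tm p i l = j := by
    rw [← hi]
    unfold tm
    simp only [Nat.add_comm]
  have hN : Nrm p q l (fun a b => a < p ∧ b < q ∧ S (tm p i a) (tm q x b)) := by
    have hT := h.trans d1.1 d1.2
    refine ⟨hT.dom, hT.row, hT.col, hT.far, star_trans hst d1.1 d1.2, ?_, ?_, hT.np, hq, ?_, ?_,
      ?_, ?_⟩
    · rintro a b y ⟨a1, a2, a3⟩ ⟨b1, b2, b3⟩ hab
      have k := nd_tm d1.1 a1 b1
      rcases Nat.lt_trichotomy (tm p i a) (tm p i b) with g | g | g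
      · have := aC _ _ _ a3 b3 g
        unfold nd at k
        omega
      · have := tm_inj d1.1 a1 b1 g
        omega
      · have := aC _ _ _ b3 a3 g
        unfold nd at k
        omega
    · rintro a y z ⟨a1, a2, a3⟩ ⟨b1, b2, b3⟩ hab
      have k := nd_tm d1.2 a2 b2
      rcases Nat.lt_trichotomy (tm q x y) (tm q x z) with g | g | g
      · have := aD _ _ _ a3 b3 g
        unfold nd at k
        omega
      · have := tm_inj d1.2 a2 b2 g
        omega
      · have := aD _ _ _ b3 a3 g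
        unfold nd at k
        omega
    · exact ⟨by omega, by omega, by rw [e0, e1]; exact h1⟩
    · exact ⟨by omega, by omega, by rw [e2, e1]; exact h2⟩
    · -- `3 ≤ l`
      have h3 : (0 : ℕ) ≠ l ∨ (0 : ℕ) ≠ 0 := Or.inl (by omega)
      have := (hT.far 0 0 l 0 ⟨by omega, by omega, by rw [e0, e1]; exact h1⟩
        ⟨by omega, by omega, by rw [e2, e1]; exact h2⟩ h3).1
      unfold nd at this
      omega
    · rintro a a1 a2 ⟨a3, _, a4⟩
      rw [e1] at a4
      have k := nd_tm (i := 0) (j := a) d1.1 (by omega) a3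
      rw [e0] at k
      rcases Nat.lt_trichotomy i (tm p i a) with g | g | g
      · have := aC _ _ _ h1 a4 g
        unfold nd at k
        omega
      · have := tm_inj d1.1 (by omega) a3 (e0.trans g)
        omega
      · have := aC _ _ _ a4 h1 g
        unfold nd at k
        omega
  exact hN.false

/-- the minimal distances -/
theorem arcs (h : Cyc p q S) (hst : Star S) {i j x l : ℕ} (h1 : S i x) (h2 : S j x)
    (hij : i < j) (hl : l = j - i ∨ l = p - (j - i))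
    (aC : ∀ i j x, S i x → S j x → i < j → l ≤ j - i ∧ l ≤ p - (j - i))
    (aD : ∀ i x y, S i x → S i y → x < y → l ≤ y - x ∧ l ≤ q - (y - x)) : False := by
  have d1 := h.dom _ _ h1
  have d2 := h.dom _ _ h2
  have d3 := aC _ _ _ h1 h2 hij
  rcases hl with hl | hl
  · refine h.closest hst (i := i) (j := j) (x := x) (l := l) h1 h2 ?_ (by omega) (by omega) aC aD
    unfold tm
    split_ifs <;> omega
  · refine h.closest hst (i := j) (j := i) (x := x) (l := l) h2 h1 ?_ (by omega) (by omega) aC aD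
    unfold tm
    split_ifs <;> omega

/-- **There is no such cyclic set of points.** -/
theorem false (h : Cyc p q S) : False := by
  classical
  obtain ⟨S, h, hst⟩ : ∃ S, Cyc p q S ∧ Star S := by
    refine exists_star _ ((Finset.range p ×ˢ Finset.range q).filter (fun a => S a.1 a.2)) le_rfl ?_
    have : (fun i x => (i, x) ∈ (Finset.range p ×ˢ Finset.range q).filter
        (fun a => S a.1 a.2)) = S := by
      funext i x
      simp only [Finset.mem_filter, Finset.mem_product, Finset.mem_range, eq_iff_iff]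
      exact ⟨fun a => a.2, fun a => ⟨h.dom _ _ a, a⟩⟩
    rw [this]
    exact h
  by_cases hQ : ∃ l, (∃ i j x, S i x ∧ S j x ∧ i < j ∧ (l = j - i ∨ l = p - (j - i))) ∨
      (∃ i x y, S i x ∧ S i y ∧ x < y ∧ (l = y - x ∨ l = q - (y - x)))
  · obtain ⟨l, hl, hm⟩ := exists_min hQ
    have aC : ∀ i j x, S i x → S j x → i < j → l ≤ j - i ∧ l ≤ p - (j - i) := by
      intro i j x h1 h2 h3
      exact ⟨hm _ (Or.inl ⟨i, j, x, h1, h2, h3, Or.inl rfl⟩),
        hm _ (Or.inl ⟨i, j, x, h1, h2, h3, Or.inr rfl⟩)⟩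
    have aD : ∀ i x y, S i x → S i y → x < y → l ≤ y - x ∧ l ≤ q - (y - x) := by
      intro i x y h1 h2 h3
      exact ⟨hm _ (Or.inr ⟨i, x, y, h1, h2, h3, Or.inl rfl⟩),
        hm _ (Or.inr ⟨i, x, y, h1, h2, h3, Or.inr rfl⟩)⟩
    rcases hl with ⟨i, j, x, h1, h2, h3, h4⟩ | ⟨i, x, y, h1, h2, h3, h4⟩
    · exact h.arcs hst h1 h2 h3 h4 aC aD
    · refine h.swap.arcs ?_ h1 h2 h3 h4 ?_ ?_
      · intro x i hx
        exact (hst i x hx).symm
      · intro x y i a b c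
        exact aD _ _ _ a b c
      · intro x i j a b c
        exact aC _ _ _ a b c
  · -- a perfect matching
    obtain ⟨x, hx⟩ := h.row 0 (by have := h.hp; omega)
    have hr : ∀ i x y, S i x → S i y → x = y := by
      intro i x y h1 h2
      rcases Nat.lt_trichotomy x y with g | g | g
      · exact (hQ ⟨y - x, Or.inr ⟨i, x, y, h1, h2, g, Or.inl rfl⟩⟩).elim
      · exact g
      · exact (hQ ⟨x - y, Or.inr ⟨i, y, x, h2, h1, g, Or.inl rfl⟩⟩).elim
    have hc : ∀ i j x, S i x → S j x → i = j := by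
      intro i j x h1 h2
      rcases Nat.lt_trichotomy i j with g | g | g
      · exact (hQ ⟨j - i, Or.inl ⟨i, j, x, h1, h2, g, Or.inl rfl⟩⟩).elim
      · exact g
      · exact (hQ ⟨i - j, Or.inl ⟨j, i, x, h2, h1, g, Or.inl rfl⟩⟩).elim
    have d := h.dom _ _ hx
    have e0 : tm p 0 0 = 0 := by unfold tm; simp
    have e1 : tm q x 0 = x := by unfold tm; simp [d.2]
    refine (h.trans d.1 d.2).iso ?_ ?_ ?_
    · exact ⟨d.1, by omega, by rw [e0, e1]; exact hx⟩
    · rintro y ⟨_, a2, a3⟩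
      rw [e0] at a3
      exact tm_inj d.2 a2 (by omega) ((hr _ _ _ a3 hx).trans e1.symm)
    · rintro j ⟨a1, _, a3⟩
      rw [e1] at a3
      exact tm_inj d.1 a1 d.1 ((hc _ _ _ a3 hx).trans e0.symm)

end Cyc

/-- **The combinatorial theorem.** If every row and every column is used and there are at least two
rows or two columns, then there is a pentagram or a close pair of points. -/
theorem comb {p q : ℕ} {S : ℕ → ℕ → Prop} (hp : 1 ≤ p) (hq : 1 ≤ q) (hpq : 2 ≤ p ∨ 2 ≤ q)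
    (dom : ∀ i x, S i x → i < p ∧ x < q) (row : ∀ i, i < p → ∃ x, S i x)
    (col : ∀ x, x < q → ∃ i, S i x)
    (np : ∀ r1 r2 r3 r4 r5 x1 x2 x3 x4 x5, S r1 x1 → S r2 x2 → S r3 x3 → S r4 x4 → S r5 x5 →
      r1 < r2 → r2 < r3 → r3 < r4 → r4 < r5 → ¬ star5 x1 x2 x3 x4 x5) :
    ∃ i x j y, S i x ∧ S j y ∧ (i ≠ j ∨ x ≠ y) ∧ (nd i j + nd x y ≤ 2 ∨
      (p - nd i j) + nd x y ≤ 2 ∨ nd i j + (q - nd x y) ≤ 2 ∨
      (p - nd i j) + (q - nd x y) ≤ 2) := by
  by_contra hcon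
  have far : ∀ i x j y, S i x → S j y → (i ≠ j ∨ x ≠ y) → 3 ≤ nd i j + nd x y ∧
    3 ≤ (p - nd i j) + nd x y ∧ 3 ≤ nd i j + (q - nd x y) ∧ 3 ≤ (p - nd i j) + (q - nd x y) := by
    intro i x j y h1 h2 h3
    by_contra h4
    exact hcon ⟨i, x, j, y, h1, h2, h3, by omega⟩
  by_cases h5 : 5 ≤ p ∧ 5 ≤ q
  · exact (Cyc.mk dom row col far np h5.1 h5.2).false
  · obtain ⟨x0, r0⟩ := row 0 (by omega)
    obtain ⟨i0, c0⟩ := col 0 (by omega)
    have dr0 := dom _ _ r0
    have dc0 := dom _ _ c0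
    rcases Nat.lt_or_ge p 2 with g1 | g1
    · -- one row
      obtain ⟨i1, c1⟩ := col 1 (by omega)
      have dc1 := dom _ _ c1
      have := far _ _ _ _ c0 c1 (by omega)
      unfold nd at this
      omega
    · obtain ⟨x1, r1⟩ := row 1 (by omega)
      have dr1 := dom _ _ r1
      have f1 := far _ _ _ _ r0 r1 (by omega)
      rcases Nat.lt_or_ge q 4 with g2 | g2
      · unfold nd at f1
        omega
      · obtain ⟨i1, c1⟩ := col 1 (by omega)
        have dc1 := dom _ _ c1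
        have f2 := far _ _ _ _ c0 c1 (by omega)
        rcases Nat.lt_or_ge p 4 with g3 | g3
        · unfold nd at f2
          omega
        · obtain ⟨i2, c2⟩ := col 2 (by omega)
          have dc2 := dom _ _ c2
          obtain ⟨x2, r2⟩ := row 2 (by omega)
          have dr2 := dom _ _ r2
          have f3 := far _ _ _ _ c0 c2 (by omega)
          have f4 := far _ _ _ _ c1 c2 (by omega)
          have f5 := far _ _ _ _ r0 r2 (by omega)
          have f6 := far _ _ _ _ r1 r2 (by omega)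
          unfold nd at f1 f2 f3 f4 f5 f6
          omega

end Pool.Agent.V8H16.TC
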