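import Pool.Agent.V8H16.TC.Close

set_option autoImplicit false
set_option linter.unusedSectionVars false
set_option synthInstance.maxHeartbeats 400000
set_option synthInstance.maxSize 2048

/-!
# Two disjoint circuits and edges between them: the flow theorem
-/

namespace Pool.Agent.V8H16.TC

open Finset Pool.Agent.TH362.TF Pool.Agent.TH362.TF.Four Pool.Agent.R890.FF

theorem NoPent.npc {S : ℕ → ℕ → Prop} (h : NoPent S) {r1 r2 r3 r4 r5 x1 x2 x3 x4 x5 : ℕ}
    (h1 : S r1 x1) (h2 : S r2 x2) (h3 : S r3 x3) (h4 : S r4 x4) (h5 : S r5 x5)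
    (hr : cy r1 r2 r3 r4 r5) (hs : star5 x1 x2 x3 x4 x5) : False := by
  rcases hr with ⟨a, b, c, d⟩ | ⟨a, b, c, d⟩ | ⟨a, b, c, d⟩ | ⟨a, b, c, d⟩ | ⟨a, b, c, d⟩
  · exact h _ _ _ _ _ _ _ _ _ _ h1 h2 h3 h4 h5 a b c d hs
  · exact h _ _ _ _ _ _ _ _ _ _ h2 h3 h4 h5 h1 a b c d (star5_rot hs)
  · exact h _ _ _ _ _ _ _ _ _ _ h3 h4 h5 h1 h2 a b c d (star5_rot2 hs)
  · exact h _ _ _ _ _ _ _ _ _ _ h4 h5 h1 h2 h3 a b c d (star5_rot3 hs)
  · exact h _ _ _ _ _ _ _ _ _ _ h5 h1 h2 h3 h4 a b c d (star5_rot4 hs)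

theorem NoPent.swap {S : ℕ → ℕ → Prop} (h : NoPent S) : NoPent (fun x i => S i x) := by
  intro x1 x2 x3 x4 x5 r1 r2 r3 r4 r5 h1 h2 h3 h4 h5 a b c d hs
  rcases hs with hs | hs
  · exact h.npc h1 h4 h2 h5 h3 hs (Or.inr (Or.inl ⟨a, b, c, d⟩))
  · exact h.npc h1 h3 h5 h2 h4 hs (Or.inl (Or.inl ⟨a, b, c, d⟩))

variable {V E : Type} [Fintype V] [DecidableEq V] [Fintype E] [DecidableEq E]
variable {s t : E → V} {p q : ℕ} {c d : ℕ → V} {f g : ℕ → E}

theorem Sr_swap (s t : E → V) (p q : ℕ) (c d : ℕ → V) (i x : ℕ) :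
    Sr s t q p d c x i ↔ Sr s t p q c d i x := by
  unfold Sr
  constructor
  · rintro ⟨a, b, e, he⟩
    exact ⟨b, a, e, he.symm⟩
  · rintro ⟨a, b, e, he⟩
    exact ⟨b, a, e, he.symm⟩

/-- no edges between the circuits -/
theorem Two.none (h : Two s t p q c d f g) (h0 : ∀ i x, ¬ Sr s t p q c d i x) :
    NZ s t univ := by
  refine h.even (sum_eq_zero fun i _ => ?_)
  unfold N
  refine sum_eq_zero fun e he => ?_
  rcases h.mem_rst he with h3 | ⟨i, hi, j, hj, h3⟩
  · rw [h3]
    exact add22 _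
  · exact absurd ⟨hi, hj, e, h3⟩ (h0 i j)

/-- the numbers different from `i` -/
def sk (i j : ℕ) : ℕ := if j < i then j else j + 1

theorem sk_ne (i j : ℕ) : sk i j ≠ i := by
  unfold sk
  split_ifs <;> omega

theorem sk_lt {i j p : ℕ} (hj : j + 1 < p) : sk i j < p := by
  unfold sk
  split_ifs <;> omega

theorem sk_mono {i j k : ℕ} (h : j < k) : sk i j < sk i k := by
  unfold sk
  split_ifs <;> omega

theorem sk_inj {i j k : ℕ} (h : sk i j = sk i k) : j = k := by
  unfold sk at h
  split_ifs at h <;> omega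

theorem sk_surj {i j p : ℕ} (hj : j < p) (hne : j ≠ i) (hi : i < p) :
    ∃ k, k + 1 < p ∧ sk i k = j := by
  rcases Nat.lt_or_ge j i with h | h
  · refine ⟨j, by omega, ?_⟩
    unfold sk
    rw [if_pos h]
  · refine ⟨j - 1, by omega, ?_⟩
    unfold sk
    rw [if_neg (by omega)]
    omega

/-- the indices after the deletion of `i` -/
theorem sk_next {i k p : ℕ} (hi : i < p) (hk : k + 1 < p) :
    (sk i k + 1) % p ≠ i → (sk i k + 1) % p = sk i ((k + 1) % (p - 1)) := by
  intro h1
  unfold sk at *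
  by_cases h2 : k < i
  · rw [if_pos h2] at *
    rw [Nat.mod_eq_of_lt (by omega)] at *
    rw [Nat.mod_eq_of_lt (by omega), if_pos (by omega)]
  · rw [if_neg h2] at *
    rcases Nat.lt_or_ge (k + 2) p with h3 | h3
    · rw [Nat.mod_eq_of_lt (by omega), Nat.mod_eq_of_lt (by omega), if_neg (by omega)]
    · have h4 : k + 1 + 1 = p := by omega
      have h5 : k + 1 = p - 1 := by omega
      rw [h4, Nat.mod_self] at h1
      rw [h4, Nat.mod_self, h5, Nat.mod_self, if_pos (by omega)]

theorem sk_next' {i k p : ℕ} (hi : i < p) (hk : k + 1 < p) :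
    (sk i k + 1) % p = i → (i + 1) % p = sk i ((k + 1) % (p - 1)) := by
  intro h1
  unfold sk at *
  by_cases h2 : k < i
  · rw [if_pos h2] at *
    rw [Nat.mod_eq_of_lt (by omega)] at h1
    rcases Nat.lt_or_ge (i + 1) p with h3 | h3
    · rw [Nat.mod_eq_of_lt h3, Nat.mod_eq_of_lt (by omega), if_neg (by omega)]
      omega
    · have h4 : i + 1 = p := by omega
      have h5 : k + 1 = p - 1 := by omega
      rw [h4, Nat.mod_self, h5, Nat.mod_self, if_pos (by omega)]
  · rw [if_neg h2] at *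
    rcases Nat.lt_or_ge (k + 2) p with h3 | h3
    · rw [Nat.mod_eq_of_lt (by omega)] at h1
      omega
    · have h4 : k + 1 + 1 = p := by omega
      have h5 : k + 1 = p - 1 := by omega
      rw [h4, Nat.mod_self] at h1
      rw [h5, Nat.mod_self, if_neg (by omega), Nat.mod_eq_of_lt (by omega)]
      omega

/-- the reduction for a vertex which is not used -/
theorem Two.red (h : Two s t p q c d f g) {i : ℕ} (hi : i < p) (hp : 2 ≤ p)
    (h0 : ∀ x, ¬ Sr s t p q c d i x) (κ : V → V) (k1 : κ (c i) = c ((i + 1) % p))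
    (k2 : ∀ v, v ≠ c i → κ v = v) :
    Two (fun e => κ (s e)) (fun e => κ (t e)) (p - 1) q (fun j => c (sk i j)) d
      (fun j => f (sk i j)) g := by
  have kc : ∀ j < p, j ≠ i → κ (c j) = c j := by
    intro j hj hne
    exact k2 _ fun he => hne (h.hc.cinj _ hj _ hi he)
  have kd : ∀ j < q, κ (d j) = d j := by
    intro j hj
    exact k2 _ (Ne.symm (h.dis i hi j hj))
  have kE : ∀ u v e, Ends s t u v e → Ends (fun e => κ (s e)) (fun e => κ (t e)) (κ u) (κ v) e := by
    rintro u v e (⟨h1, h2⟩ | ⟨h1, h2⟩)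
    · exact Or.inl ⟨by simp only [h1], by simp only [h2]⟩
    · exact Or.inr ⟨by simp only [h1], by simp only [h2]⟩
  refine ⟨⟨by omega, ?_, ?_, ?_⟩, ⟨h.hd.pos, h.hd.cinj, h.hd.finj, ?_⟩, ?_, ?_⟩
  · intro a ha b hb he
    exact sk_inj (h.hc.cinj _ (sk_lt (by omega)) _ (sk_lt (by omega)) he)
  · intro a ha b hb he
    exact sk_inj (h.hc.finj _ (sk_lt (by omega)) _ (sk_lt (by omega)) he)
  · intro k hk
    have h1 := kE _ _ _ (h.hc.hf _ (sk_lt (i := i) (j := k) (p := p) (by omega)))
    rw [kc _ (sk_lt (by omega)) (sk_ne _ _)] at h1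
    by_cases h2 : (sk i k + 1) % p = i
    · rw [h2, k1, sk_next' hi (by omega) h2] at h1
      exact h1
    · rw [kc _ (Nat.mod_lt _ (by omega)) h2, sk_next hi (by omega) h2] at h1
      exact h1
  · intro j hj
    have h1 := kE _ _ _ (h.hd.hf j hj)
    rw [kd _ hj, kd _ (Nat.mod_lt _ h.hd.pos)] at h1
    exact h1
  · intro a ha b hb
    exact h.dis _ (sk_lt (by omega)) _ hb
  · intro e
    rcases h.rest e with ⟨j, hj, h1⟩ | h1 | h1 | ⟨j, hj, x, hx, h1⟩
    · by_cases h2 : j = i
      · right; right; left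
        subst h2
        have h3 := h.hc.hf j hj
        rw [← h1] at h3
        have h4 : κ (c j) = κ (c ((j + 1) % p)) := by
          rw [k1]
          refine (kc _ (Nat.mod_lt _ (by omega)) ?_).symm
          intro h5
          rcases Nat.lt_or_ge (j + 1) p with h6 | h6
          · rw [Nat.mod_eq_of_lt h6] at h5
            omega
          · have h7 : j + 1 = p := by omega
            rw [h7, Nat.mod_self] at h5
            omega
        rcases h3 with ⟨a, b⟩ | ⟨a, b⟩
        · simp only [a, b, h4]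
        · simp only [a, b, h4]
      · obtain ⟨k, hk, h3⟩ := sk_surj hj h2 hi
        exact Or.inl ⟨k, by omega, by rw [h3]; exact h1⟩
    · exact Or.inr (Or.inl h1)
    · exact Or.inr (Or.inr (Or.inl (by simp only [h1])))
    · have h2 : j ≠ i := by
        rintro rfl
        exact h0 x ⟨hj, hx, e, h1⟩
      obtain ⟨k, hk, h3⟩ := sk_surj hj h2 hi
      refine Or.inr (Or.inr (Or.inr ⟨k, by omega, x, hx, ?_⟩))
      have h4 := kE _ _ _ h1
      rw [kc j hj h2, kd x hx] at h4
      rw [h3]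
      exact h4

theorem Two.red_sr (h : Two s t p q c d f g) {i : ℕ} (hi : i < p) (hp : 2 ≤ p)
    (h0 : ∀ x, ¬ Sr s t p q c d i x) (κ : V → V) (k1 : κ (c i) = c ((i + 1) % p))
    (k2 : ∀ v, v ≠ c i → κ v = v) {j x : ℕ}
    (h1 : Sr (fun e => κ (s e)) (fun e => κ (t e)) (p - 1) q (fun j => c (sk i j)) d j x) :
    Sr s t p q c d (sk i j) x := by
  obtain ⟨h2, h3, e, he⟩ := h1
  have hj : sk i j < p := sk_lt (by omega)
  refine ⟨hj, h3, e, ?_⟩
  -- the edge joins the two circuits
  have hdx : ∀ v, κ v = d x → v = d x := by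
    intro v hv
    by_cases h4 : v = c i
    · rw [h4, k1] at hv
      exact absurd hv (h.dis _ (Nat.mod_lt _ (by omega)) x h3)
    · rw [k2 v h4] at hv
      exact hv
  have hne : ∀ u v, Ends s t u v e → u = c i → v = d x → False := by
    intro u v h5 h6 h7
    rw [h6, h7] at h5
    exact h0 x ⟨hi, h3, e, h5⟩
  rcases he with ⟨h5, h6⟩ | ⟨h5, h6⟩
  · have h7 := hdx _ h6
    have h8 : s e ≠ c i := fun h8 => hne _ _ (Or.inl ⟨rfl, rfl⟩) h8 h7
    simp only at h5
    rw [k2 _ h8] at h5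
    exact Or.inl ⟨h5, h7⟩
  · have h7 := hdx _ h5
    have h8 : t e ≠ c i := fun h8 => hne _ _ (Or.inr ⟨rfl, rfl⟩) h8 h7
    simp only at h6
    rw [k2 _ h8] at h6
    exact Or.inr ⟨h7, h6⟩

/-- the two edges at a vertex which is not used -/
theorem Two.cut_eq (h : Two s t p q c d f g) {i : ℕ} (hi : i < p) (hp : 2 ≤ p)
    (h0 : ∀ x, ¬ Sr s t p q c d i x) : ∃ i' < p, i' ≠ i ∧
    cut s t univ (fun u => decide (u = c i)) = {f i, f i'} := by
  have hprev : ∃ i' < p, i' ≠ i ∧ (i' + 1) % p = i := by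
    rcases Nat.eq_zero_or_pos i with h1 | h1
    · refine ⟨p - 1, by omega, by omega, ?_⟩
      have : p - 1 + 1 = p := by omega
      rw [this, Nat.mod_self, h1]
    · refine ⟨i - 1, by omega, by omega, ?_⟩
      have : i - 1 + 1 = i := by omega
      rw [this, Nat.mod_eq_of_lt hi]
  obtain ⟨i', h1, h2, h3⟩ := hprev
  have hnext : (i + 1) % p ≠ i := by
    intro h5
    rcases Nat.lt_or_ge (i + 1) p with h6 | h6
    · rw [Nat.mod_eq_of_lt h6] at h5
      omega
    · have h7 : i + 1 = p := by omega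
      rw [h7, Nat.mod_self] at h5
      omega
  refine ⟨i', h1, h2, ?_⟩
  have hmod : ∀ j, (j + 1) % p < p := fun j => Nat.mod_lt _ (by omega)
  ext e
  unfold cut
  rw [mem_filter, mem_insert, mem_singleton]
  constructor
  · rintro ⟨-, h4⟩
    rcases h.rest e with ⟨j, hj, h5⟩ | ⟨j, hj, h5⟩ | h5 | ⟨j, hj, x, hx, h5⟩
    · by_cases h6 : j = i
      · left
        rw [h5, h6]
      · by_cases h7 : (j + 1) % p = i
        · right
          rw [h5]
          congr 1
          rcases Nat.lt_or_ge (j + 1) p with h8 | h8 <;> rcases Nat.lt_or_ge (i' + 1) p with h9 | h9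
          · rw [Nat.mod_eq_of_lt h8] at h7
            rw [Nat.mod_eq_of_lt h9] at h3
            omega
          · have h10 : i' + 1 = p := by omega
            rw [Nat.mod_eq_of_lt h8] at h7
            rw [h10, Nat.mod_self] at h3
            omega
          · have h10 : j + 1 = p := by omega
            rw [Nat.mod_eq_of_lt h9] at h3
            rw [h10, Nat.mod_self] at h7
            omega
          · omega
        · exfalso
          have h8 := h.hc.hf j hj
          rw [← h5] at h8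
          have h9 : c j ≠ c i := fun he => h6 (h.hc.cinj _ hj _ hi he)
          have h10 : c ((j + 1) % p) ≠ c i := fun he => h7 (h.hc.cinj _ (hmod j) _ hi he)
          rcases h8 with ⟨a, b⟩ | ⟨a, b⟩ <;> rw [a, b] at h4 <;> simp [h9, h10] at h4
    · exfalso
      have h8 := h.hd.hf j hj
      rw [← h5] at h8
      have h9 : d j ≠ c i := Ne.symm (h.dis i hi j hj)
      have h10 : d ((j + 1) % q) ≠ c i := Ne.symm (h.dis i hi _ (Nat.mod_lt _ h.hd.pos))
      rcases h8 with ⟨a, b⟩ | ⟨a, b⟩ <;> rw [a, b] at h4 <;> simp [h9, h10] at h4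
    · rw [h5] at h4
      exact absurd rfl h4
    · exfalso
      have h9 : d x ≠ c i := Ne.symm (h.dis i hi x hx)
      have h10 : c j ≠ c i := by
        intro he
        have := h.hc.cinj _ hj _ hi he
        rw [this] at h5
        exact h0 x ⟨hi, hx, e, h5⟩
      rcases h5 with ⟨a, b⟩ | ⟨a, b⟩ <;> rw [a, b] at h4 <;> simp [h9, h10] at h4
  · rintro (rfl | rfl)
    · refine ⟨mem_univ _, ?_⟩
      have h10 : c ((i + 1) % p) ≠ c i := fun he => hnext (h.hc.cinj _ (hmod i) _ hi he)
      rcases h.hc.hf i hi with ⟨a, b⟩ | ⟨a, b⟩ <;> rw [a, b] <;> simp [h10]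
    · refine ⟨mem_univ _, ?_⟩
      have h10 : c i' ≠ c i := fun he => h2 (h.hc.cinj _ h1 _ hi he)
      have h11 := h.hc.hf i' h1
      rw [h3] at h11
      rcases h11 with ⟨a, b⟩ | ⟨a, b⟩ <;> rw [a, b] <;> simp [h10]

/-- **The flow theorem.** -/
theorem Two.flow (n : ℕ) : ∀ (s t : E → V) (p q : ℕ) (c d : ℕ → V) (f g : ℕ → E),
    p + q ≤ n → Two s t p q c d f g → N1 s t univ → NoPent (Sr s t p q c d) →
    NZ s t univ := by
  induction n with
  | zero =>
    intro s t p q c d f g hn h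
    have := h.hc.pos
    omega
  | succ n ih =>
    -- the reduction of a row
    have key : ∀ (s t : E → V) (p q : ℕ) (c d : ℕ → V) (f g : ℕ → E),
        p + q ≤ n + 1 → Two s t p q c d f g → N1 s t univ → NoPent (Sr s t p q c d) →
        ∀ i < p, (∀ x, ¬ Sr s t p q c d i x) → NZ s t univ := by
      intro s t p q c d f g hn h h1 np i hi h0
      by_cases hp : 2 ≤ p
      · classical
        set κ : V → V := fun v => if v = c i then c ((i + 1) % p) else v with hκ
        have k1 : κ (c i) = c ((i + 1) % p) := by rw [hκ]; simp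
        have k2 : ∀ v, v ≠ c i → κ v = v := by
          intro v hv
          rw [hκ]
          simp [hv]
        obtain ⟨i', h2, h3, h4⟩ := h.cut_eq hi hp h0
        have hnext : (i + 1) % p ≠ i := by
          intro h5
          rcases Nat.lt_or_ge (i + 1) p with h6 | h6
          · rw [Nat.mod_eq_of_lt h6] at h5
            omega
          · have h7 : i + 1 = p := by omega
            rw [h7, Nat.mod_self] at h5
            omega
        refine con2 s t univ (mem_univ _) (h.hc.hf i hi)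
          (fun he => hnext (h.hc.cinj _ hi _ (Nat.mod_lt _ (by omega)) he).symm)
          (fun he => h3 (h.hc.finj _ hi _ h2 he).symm) h4 κ k1 k2 ?_
        refine ih _ _ _ _ _ _ _ _ (by omega) (h.red hi hp h0 κ k1 k2)
          (quot_n1 (Finset.Subset.refl _) (fun e he he' => absurd he he') h1) ?_
        intro r1 r2 r3 r4 r5 x1 x2 x3 x4 x5 m1 m2 m3 m4 m5 a1 a2 a3 a4
        exact np _ _ _ _ _ _ _ _ _ _ (h.red_sr hi hp h0 κ k1 k2 m1)
          (h.red_sr hi hp h0 κ k1 k2 m2) (h.red_sr hi hp h0 κ k1 k2 m3)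
          (h.red_sr hi hp h0 κ k1 k2 m4) (h.red_sr hi hp h0 κ k1 k2 m5) (sk_mono a1) (sk_mono a2)
          (sk_mono a3) (sk_mono a4)
      · refine h.none fun j x hjx => ?_
        have h2 := hjx.1
        have h3 : j = i := by omega
        rw [h3] at hjx
        exact h0 x hjx
    intro s t p q c d f g hn h h1 np
    by_cases hr : ∀ i < p, ∃ x, Sr s t p q c d i x
    · by_cases hs : ∀ x < q, ∃ i, Sr s t p q c d i x
      · exact h.core h1 hr hs np
      · push Not at hs
        obtain ⟨x, hx, hs⟩ := hs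
        have np' : NoPent (Sr s t q p d c) := by
          have := np.swap
          intro r1 r2 r3 r4 r5 x1 x2 x3 x4 x5 m1 m2 m3 m4 m5
          exact this _ _ _ _ _ _ _ _ _ _ ((Sr_swap _ _ _ _ _ _ _ _).1 m1)
            ((Sr_swap _ _ _ _ _ _ _ _).1 m2) ((Sr_swap _ _ _ _ _ _ _ _).1 m3)
            ((Sr_swap _ _ _ _ _ _ _ _).1 m4) ((Sr_swap _ _ _ _ _ _ _ _).1 m5)
        refine key s t q p d c g f (by omega) h.swap h1 np' x hx fun i hi => ?_
        exact hs i ((Sr_swap _ _ _ _ _ _ _ _).1 hi)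
    · push Not at hr
      obtain ⟨i, hi, hr⟩ := hr
      exact key s t p q c d f g hn h h1 np i hi hr

end Pool.Agent.V8H16.TC
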