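import Pool.Agent.TH362.TF.Multi
import Pool.Agent.V8H16.TC.Main

set_option autoImplicit false
set_option linter.unusedSectionVars false

/-!
# A pentagram gives a Petersen minor
-/

namespace Pool.Agent.V8H16.TC

open Pool.Agent.TH362.TF Pool.Agent.TH362.Multi

/-- `n` is the next element of `M` after `m` on the circle with `p` elements -/
def Nxt (p : ℕ) (M : ℕ → Prop) (m n : ℕ) : Prop :=
  ∃ L, 1 ≤ L ∧ (m + L) % p = n ∧ ∀ j, 1 ≤ j → j < L → ¬ M ((m + j) % p)

theorem nxt_lt {p a b : ℕ} {M : ℕ → Prop} (hab : a < b) (hb : b < p)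
    (hM : ∀ x, a < x → x < b → ¬ M x) : Nxt p M a b := by
  refine ⟨b - a, by omega, ?_, fun j h1 h2 => ?_⟩
  · rw [show a + (b - a) = b by omega, Nat.mod_eq_of_lt hb]
  · rw [Nat.mod_eq_of_lt (by omega)]
    exact hM _ (by omega) (by omega)

theorem nxt_wrap {p a e : ℕ} {M : ℕ → Prop} (hae : a < e) (he : e < p)
    (hM : ∀ x, x < a ∨ e < x → ¬ M x) : Nxt p M e a := by
  refine ⟨p - e + a, by omega, ?_, fun j h1 h2 => ?_⟩
  · rw [show e + (p - e + a) = a + p by omega, Nat.add_mod_right, Nat.mod_eq_of_lt (by omega)]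
  · rcases Nat.lt_or_ge (e + j) p with h3 | h3
    · rw [Nat.mod_eq_of_lt h3]
      exact hM _ (by omega)
    · rw [show e + j = (e + j - p) + p by omega, Nat.add_mod_right,
        Nat.mod_eq_of_lt (by omega)]
      exact hM _ (by omega)

theorem nxt5 {p a b c d e : ℕ} {M : ℕ → Prop} (ha : a < p) (hb : b < p) (hc : c < p) (hd : d < p)
    (he : e < p) (hM : ∀ x, M x → x = a ∨ x = b ∨ x = c ∨ x = d ∨ x = e) (h : cy a b c d e) :
    Nxt p M a b ∧ Nxt p M b c ∧ Nxt p M c d ∧ Nxt p M d e ∧ Nxt p M e a := by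
  have key : ∀ a b c d e : ℕ, e < p →
      (∀ x, M x → x = a ∨ x = b ∨ x = c ∨ x = d ∨ x = e) → a < b → b < c → c < d → d < e →
      Nxt p M a b ∧ Nxt p M b c ∧ Nxt p M c d ∧ Nxt p M d e ∧ Nxt p M e a := by
    intro a b c d e he hM h1 h2 h3 h4
    refine ⟨nxt_lt h1 (by omega) ?_, nxt_lt h2 (by omega) ?_, nxt_lt h3 (by omega) ?_,
      nxt_lt h4 (by omega) ?_, nxt_wrap (by omega) he ?_⟩
    · intro x k1 k2 k3
      have := hM x k3
      omega
    · intro x k1 k2 k3
      have := hM x k3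
      omega
    · intro x k1 k2 k3
      have := hM x k3
      omega
    · intro x k1 k2 k3
      have := hM x k3
      omega
    · intro x k1 k3
      have := hM x k3
      omega
  rcases h with ⟨h1, h2, h3, h4⟩ | ⟨h1, h2, h3, h4⟩ | ⟨h1, h2, h3, h4⟩ | ⟨h1, h2, h3, h4⟩ |
    ⟨h1, h2, h3, h4⟩
  · exact key a b c d e he hM h1 h2 h3 h4
  · obtain ⟨k1, k2, k3, k4, k5⟩ := key b c d e a ha (fun x hx => by
      have := hM x hx
      tauto) h1 h2 h3 h4
    exact ⟨k5, k1, k2, k3, k4⟩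
  · obtain ⟨k1, k2, k3, k4, k5⟩ := key c d e a b hb (fun x hx => by
      have := hM x hx
      tauto) h1 h2 h3 h4
    exact ⟨k4, k5, k1, k2, k3⟩
  · obtain ⟨k1, k2, k3, k4, k5⟩ := key d e a b c hc (fun x hx => by
      have := hM x hx
      tauto) h1 h2 h3 h4
    exact ⟨k3, k4, k5, k1, k2⟩
  · obtain ⟨k1, k2, k3, k4, k5⟩ := key e a b c d hd (fun x hx => by
      have := hM x hx
      tauto) h1 h2 h3 h4
    exact ⟨k2, k3, k4, k5, k1⟩

variable {V E : Type} {s t : E → V}

/-- the vertices of a circuit from the vertex with the index `m` up to the next element of `M` -/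
def Arc (p : ℕ) (c : ℕ → V) (M : ℕ → Prop) (m : ℕ) : Set V :=
  {v | ∃ i, v = c ((m + i) % p) ∧ ∀ j, 1 ≤ j → j ≤ i → ¬ M ((m + j) % p)}

/-- the two vertex sets are joined by an edge -/
def Touch (s t : E → V) (X Y : Set V) : Prop :=
  ∃ e, (s e ∈ X ∧ t e ∈ Y) ∨ (s e ∈ Y ∧ t e ∈ X)

theorem Touch.symm {X Y : Set V} (h : Touch s t X Y) : Touch s t Y X := by
  obtain ⟨e, h⟩ := h
  exact ⟨e, h.symm⟩

section
variable {p : ℕ} {c : ℕ → V} {f : ℕ → E} {M : ℕ → Prop}

theorem arc_self {m : ℕ} (hm : m < p) : c m ∈ Arc p c M m :=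
  ⟨0, by rw [Nat.add_zero, Nat.mod_eq_of_lt hm], fun j h1 h2 => by omega⟩

theorem linked_symm {X : Set E} {u v : V} (h : Linked s t X u v) : Linked s t X v u := by
  unfold Linked at *
  induction h with
  | refl => exact Relation.ReflTransGen.refl
  | tail _ h2 ih =>
    refine Relation.ReflTransGen.head ?_ ih
    obtain ⟨e, he, h3⟩ := h2
    exact ⟨e, he, h3.symm⟩

theorem arc_conn (h : Circ s t p c f) {m : ℕ} (hm : m < p) : ConnectedSet s t (Arc p c M m) := by
  have key : ∀ i, (∀ j, 1 ≤ j → j ≤ i → ¬ M ((m + j) % p)) →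
      Linked s t {e | s e ∈ Arc p c M m ∧ t e ∈ Arc p c M m} (c m) (c ((m + i) % p)) := by
    intro i
    induction i with
    | zero =>
      intro _
      rw [Nat.add_zero, Nat.mod_eq_of_lt hm]
      exact Relation.ReflTransGen.refl
    | succ i ih =>
      intro hi
      have h1 := ih fun j a b => hi j a (by omega)
      have hp := h.pos
      have h2 := h.hf ((m + i) % p) (Nat.mod_lt _ hp)
      have h3 : ((m + i) % p + 1) % p = (m + (i + 1)) % p := by
        rw [Nat.mod_add_mod, Nat.add_assoc]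
      rw [h3] at h2
      have m1 : c ((m + i) % p) ∈ Arc p c M m := ⟨i, rfl, fun j a b => hi j a (by omega)⟩
      have m2 : c ((m + (i + 1)) % p) ∈ Arc p c M m := ⟨i + 1, rfl, hi⟩
      refine Relation.ReflTransGen.tail h1 ⟨f ((m + i) % p), ?_, h2⟩
      rcases h2 with ⟨a, b⟩ | ⟨a, b⟩
      · exact ⟨by rw [a]; exact m1, by rw [b]; exact m2⟩
      · exact ⟨by rw [a]; exact m2, by rw [b]; exact m1⟩
  refine ⟨⟨_, arc_self hm⟩, ?_⟩
  rintro u ⟨i, rfl, hi⟩ v ⟨j, rfl, hj⟩
  exact Relation.ReflTransGen.trans (linked_symm (key i hi)) (key j hj)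

theorem arc_disj (h : Circ s t p c f) {m m' : ℕ} (hm : m < p) (hm' : m' < p) (hM : M m)
    (hM' : M m') (hne : m ≠ m') : Disjoint (Arc p c M m) (Arc p c M m') := by
  have key : ∀ m m' i i' : ℕ, m < p → m' < p → M m → m ≠ m' → i ≤ i' →
      (m + i) % p = (m' + i') % p → (∀ j, 1 ≤ j → j ≤ i' → ¬ M ((m' + j) % p)) → False := by
    intro m m' i i' hm hm' hM hne hii he hj
    have h1 : (m' + (i' - i)) % p = m := by
      have h2 : m + i ≡ (m' + (i' - i)) + i [MOD p] := by
        have h3 : m' + (i' - i) + i = m' + i' := by omega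
        rw [h3]
        exact he
      have h3 := Nat.ModEq.add_right_cancel' i h2
      unfold Nat.ModEq at h3
      rw [← h3, Nat.mod_eq_of_lt hm]
    rcases Nat.eq_or_lt_of_le hii with h2 | h2
    · rw [h2, Nat.sub_self, Nat.add_zero, Nat.mod_eq_of_lt hm'] at h1
      exact hne h1.symm
    · refine hj (i' - i) (by omega) (by omega) ?_
      rw [h1]
      exact hM
  rw [Set.disjoint_left]
  rintro v ⟨i, h1, h2⟩ ⟨i', h3, h4⟩
  have hp := h.pos
  have h5 := h.cinj _ (Nat.mod_lt (m + i) hp) _ (Nat.mod_lt (m' + i') hp) (h1.symm.trans h3)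
  rcases Nat.le_total i i' with h6 | h6
  · exact key m m' i i' hm hm' hM hne h6 h5 h4
  · exact key m' m i' i hm' hm hM' hne.symm h6 h5.symm h2

theorem arc_touch (h : Circ s t p c f) {m n : ℕ} (hn : n < p) (hN : Nxt p M m n) :
    Touch s t (Arc p c M m) (Arc p c M n) := by
  obtain ⟨L, h1, h2, h3⟩ := hN
  have hp := h.pos
  have h4 := h.hf ((m + (L - 1)) % p) (Nat.mod_lt _ hp)
  have h5 : ((m + (L - 1)) % p + 1) % p = n := by
    rw [Nat.mod_add_mod, ← h2]
    congr 1
    omega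
  rw [h5] at h4
  have m1 : c ((m + (L - 1)) % p) ∈ Arc p c M m := ⟨L - 1, rfl, fun j a b => h3 j a (by omega)⟩
  have m2 : c n ∈ Arc p c M n := arc_self hn
  refine ⟨f ((m + (L - 1)) % p), ?_⟩
  rcases h4 with ⟨a, b⟩ | ⟨a, b⟩
  · exact Or.inl ⟨by rw [a]; exact m1, by rw [b]; exact m2⟩
  · exact Or.inr ⟨by rw [a]; exact m2, by rw [b]; exact m1⟩

theorem arc_sub (hp : 0 < p) {m : ℕ} {v : V} (h : v ∈ Arc p c M m) : ∃ i < p, v = c i := by
  obtain ⟨i, h1, _⟩ := h
  exact ⟨_, Nat.mod_lt _ hp, h1⟩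

end

/-- The Petersen graph is a minor: there are ten disjoint connected vertex sets, one for each
two-element subset of `{0, 1, 2, 3, 4}`, such that the sets for disjoint subsets are joined by an
edge. -/
def PMinor (s t : E → V) : Prop :=
  ∃ B : {p : Finset (Fin 5) // p.card = 2} → Set V,
    (∀ i, ConnectedSet s t (B i)) ∧
    (∀ i j, i ≠ j → Disjoint (B i) (B j)) ∧
    ∀ i j, Disjoint i.1 j.1 → ∃ e, (s e ∈ B i ∧ t e ∈ B j) ∨ (s e ∈ B j ∧ t e ∈ B i)

/-- the position of a pair: outer or inner, and the number -/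
def lab (a : {p : Finset (Fin 5) // p.card = 2}) : Bool × Fin 5 :=
  (decide (∃ x ∈ a.1, x + 1 ∈ a.1), 1 - ∑ x ∈ a.1, x)

theorem lab_inj : ∀ a b, a ≠ b → lab a ≠ lab b := by decide

theorem lab_adj : ∀ a b : {p : Finset (Fin 5) // p.card = 2}, Disjoint a.1 b.1 →
    ((lab a).1 = true ∧ (lab b).1 = true ∧ ((lab b).2 = (lab a).2 + 1 ∨ (lab a).2 = (lab b).2 + 1)) ∨
    ((lab a).1 = true ∧ (lab b).1 = false ∧ (lab a).2 = (lab b).2) ∨
    ((lab a).1 = false ∧ (lab b).1 = true ∧ (lab a).2 = (lab b).2) ∨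
    ((lab a).1 = false ∧ (lab b).1 = false ∧
      ((lab b).2 = (lab a).2 + 2 ∨ (lab a).2 = (lab b).2 + 2)) := by decide

/-- two families of sets which form the Petersen graph -/
theorem pminor_of (X Y : Fin 5 → Set V) (hX : ∀ k, ConnectedSet s t (X k))
    (hY : ∀ k, ConnectedSet s t (Y k)) (dX : ∀ k l, k ≠ l → Disjoint (X k) (X l))
    (dY : ∀ k l, k ≠ l → Disjoint (Y k) (Y l)) (dXY : ∀ k l, Disjoint (X k) (Y l))
    (tX : ∀ k, Touch s t (X k) (X (k + 1))) (tY : ∀ k, Touch s t (Y k) (Y (k + 2)))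
    (tXY : ∀ k, Touch s t (X k) (Y k)) : PMinor s t := by
  refine ⟨fun a => if (lab a).1 = true then X (lab a).2 else Y (lab a).2, ?_, ?_, ?_⟩
  · intro a
    by_cases h : (lab a).1 = true
    · simp only [h, if_true]
      exact hX _
    · simp only [h]
      exact hY _
  · intro a b hab
    have h1 := lab_inj a b hab
    by_cases ha : (lab a).1 = true <;> by_cases hb : (lab b).1 = true
    · simp only [ha, hb, if_true]
      exact dX _ _ fun he => h1 (Prod.ext (ha.trans hb.symm) he)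
    · simp only [ha, hb, if_true]
      exact dXY _ _
    · simp only [ha, hb, if_true]
      exact (dXY _ _).symm
    · simp only [ha, hb]
      rw [Bool.not_eq_true] at ha hb
      exact dY _ _ fun he => h1 (Prod.ext (ha.trans hb.symm) he)
  · intro a b hab
    rcases lab_adj a b hab with ⟨ha, hb, h⟩ | ⟨ha, hb, h⟩ | ⟨ha, hb, h⟩ | ⟨ha, hb, h⟩
    · simp only [ha, hb, if_true]
      rcases h with h | h
      · rw [h]
        exact tX _
      · rw [h]
        exact (tX _).symm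
    · simp only [ha, hb, if_true]
      rw [h]
      exact tXY _
    · simp only [ha, hb, if_true]
      rw [h]
      exact (tXY _).symm
    · simp only [ha, hb]
      rcases h with h | h
      · rw [h]
        exact tY _
      · rw [h]
        exact (tY _).symm

/-- **A pentagram gives a Petersen minor.** -/
theorem pent {p q : ℕ} {c d : ℕ → V} {f g : ℕ → E} (hc : Circ s t p c f) (hd : Circ s t q d g)
    (dis : ∀ i < p, ∀ j < q, c i ≠ d j) (h : ¬ NoPent (Sr s t p q c d)) : PMinor s t := by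
  unfold NoPent at h
  push Not at h
  obtain ⟨r1, r2, r3, r4, r5, x1, x2, x3, x4, x5, ⟨a1, b1, e1, h1⟩, ⟨a2, b2, e2, h2⟩,
    ⟨a3, b3, e3, h3⟩, ⟨a4, b4, e4, h4⟩, ⟨a5, b5, e5, h5⟩, k1, k2, k3, k4, hs⟩ := h
  set r : Fin 5 → ℕ := ![r1, r2, r3, r4, r5] with hr
  set x : Fin 5 → ℕ := ![x1, x2, x3, x4, x5] with hx
  set M : ℕ → Prop := fun y => ∃ k, y = r k with hM
  set M' : ℕ → Prop := fun y => ∃ k, y = x k with hM'
  have hMc : ∀ y, M y → y = r1 ∨ y = r2 ∨ y = r3 ∨ y = r4 ∨ y = r5 := by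
    rintro y ⟨k, rfl⟩
    fin_cases k <;> simp [hr]
  have hMd : ∀ y, M' y → y = x1 ∨ y = x2 ∨ y = x3 ∨ y = x4 ∨ y = x5 := by
    rintro y ⟨k, rfl⟩
    fin_cases k <;> simp [hx]
  have rp : ∀ k, r k < p := by
    intro k
    fin_cases k <;> simpa [hr]
  have xq : ∀ k, x k < q := by
    intro k
    fin_cases k <;> simpa [hx]
  obtain ⟨n1, n2, n3, n4, n5⟩ := nxt5 (M := M) a1 a2 a3 a4 a5 hMc (Or.inl ⟨k1, k2, k3, k4⟩)
  have nr : ∀ k : Fin 5, Nxt p M (r k) (r (k + 1)) := by
    intro k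
    fin_cases k
    · exact n1
    · exact n2
    · exact n3
    · exact n4
    · exact n5
  have tX : ∀ k, Touch s t (Arc p c M (r k)) (Arc p c M (r (k + 1))) := fun k =>
    arc_touch hc (rp _) (nr k)
  have hxd : (∀ k l, k ≠ l → x k ≠ x l) ∧
      ∀ k, Touch s t (Arc q d M' (x k)) (Arc q d M' (x (k + 2))) := by
    rcases hs with hs | hs
    · constructor
      · unfold cy at hs
        intro k l hkl
        fin_cases k <;> fin_cases l <;> simp [hx] at hkl ⊢ <;> omega
      · obtain ⟨m1, m2, m3, m4, m5⟩ := nxt5 (M := M') b1 b4 b2 b5 b3 (fun y hy => by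
          have := hMd y hy
          tauto) hs
        intro k
        fin_cases k
        · exact (arc_touch hd (xq 0) m5).symm
        · exact (arc_touch hd (xq 1) m2).symm
        · exact (arc_touch hd (xq 2) m4).symm
        · exact (arc_touch hd (xq 3) m1).symm
        · exact (arc_touch hd (xq 4) m3).symm
    · constructor
      · unfold cy at hs
        intro k l hkl
        fin_cases k <;> fin_cases l <;> simp [hx] at hkl ⊢ <;> omega
      · obtain ⟨m1, m2, m3, m4, m5⟩ := nxt5 (M := M') b1 b3 b5 b2 b4 (fun y hy => by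
          have := hMd y hy
          tauto) hs
        intro k
        fin_cases k
        · exact arc_touch hd (xq 2) m1
        · exact arc_touch hd (xq 3) m4
        · exact arc_touch hd (xq 4) m2
        · exact arc_touch hd (xq 0) m5
        · exact arc_touch hd (xq 1) m3
  have rne : ∀ k l, k ≠ l → r k ≠ r l := by
    intro k l hkl
    fin_cases k <;> fin_cases l <;> simp [hr] at hkl ⊢ <;> omega
  refine pminor_of (fun k => Arc p c M (r k)) (fun k => Arc q d M' (x k))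
    (fun k => arc_conn hc (rp k)) (fun k => arc_conn hd (xq k)) ?_ ?_ ?_ tX hxd.2 ?_
  · intro k l hkl
    exact arc_disj hc (rp k) (rp l) ⟨k, rfl⟩ ⟨l, rfl⟩ (rne k l hkl)
  · intro k l hkl
    exact arc_disj hd (xq k) (xq l) ⟨k, rfl⟩ ⟨l, rfl⟩ (hxd.1 k l hkl)
  · intro k l
    rw [Set.disjoint_left]
    intro v hv hv'
    obtain ⟨i, hi, g1⟩ := arc_sub hc.pos hv
    obtain ⟨j, hj, g2⟩ := arc_sub hd.pos hv'
    exact dis i hi j hj (g1.symm.trans g2)
  · intro k
    have key : ∀ r0 x0 e0, r0 < p → x0 < q → Ends s t (c r0) (d x0) e0 →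
        Touch s t (Arc p c M r0) (Arc q d M' x0) := by
      intro r0 x0 e0 g1 g2 g3
      refine ⟨e0, ?_⟩
      rcases g3 with ⟨g4, g5⟩ | ⟨g4, g5⟩
      · exact Or.inl ⟨by rw [g4]; exact arc_self g1, by rw [g5]; exact arc_self g2⟩
      · exact Or.inr ⟨by rw [g4]; exact arc_self g2, by rw [g5]; exact arc_self g1⟩
    fin_cases k
    · exact key _ _ _ a1 b1 h1
    · exact key _ _ _ a2 b2 h2
    · exact key _ _ _ a3 b3 h3
    · exact key _ _ _ a4 b4 h4
    · exact key _ _ _ a5 b5 h5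

end Pool.Agent.V8H16.TC
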