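import Pool.Agent.V8H16.TC.Win

set_option autoImplicit false

/-!
# Cyclic sets of points in normal position
-/

namespace Pool.Agent.V8H16.TC

/-- cyclic order of five numbers -/
def cy (a b c d e : ℕ) : Prop :=
  (a < b ∧ b < c ∧ c < d ∧ d < e) ∨ (b < c ∧ c < d ∧ d < e ∧ e < a) ∨
  (c < d ∧ d < e ∧ e < a ∧ a < b) ∨ (d < e ∧ e < a ∧ a < b ∧ b < c) ∨
  (e < a ∧ a < b ∧ b < c ∧ c < d)

/-- the columns of five points in increasing rows form a pentagram -/
def star5 (x1 x2 x3 x4 x5 : ℕ) : Prop := cy x1 x4 x2 x5 x3 ∨ cy x1 x3 x5 x2 x4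

/-- A cyclic set of points with `p` rows and `q` columns in normal position: the column `0` is
used in the rows `0` and `l`, and not in between. -/
structure Nrm (p q l : ℕ) (S : ℕ → ℕ → Prop) : Prop where
  dom : ∀ i x, S i x → i < p ∧ x < q
  row : ∀ i, i < p → ∃ x, S i x
  col : ∀ x, x < q → ∃ i, S i x
  far : ∀ i x j y, S i x → S j y → (i ≠ j ∨ x ≠ y) → 3 ≤ nd i j + nd x y ∧
    3 ≤ (p - nd i j) + nd x y ∧ 3 ≤ nd i j + (q - nd x y) ∧ 3 ≤ (p - nd i j) + (q - nd x y)
  star : ∀ i x, S i x → (∀ y, S i y → y = x) ∨ (∀ j, S j x → j = i)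
  arcC : ∀ i j x, S i x → S j x → i < j → l ≤ j - i ∧ l ≤ p - (j - i)
  arcD : ∀ i x y, S i x → S i y → x < y → l ≤ y - x ∧ l ≤ q - (y - x)
  np : ∀ r1 r2 r3 r4 r5 x1 x2 x3 x4 x5, S r1 x1 → S r2 x2 → S r3 x3 → S r4 x4 → S r5 x5 →
    r1 < r2 → r2 < r3 → r3 < r4 → r4 < r5 → ¬ star5 x1 x2 x3 x4 x5
  hq : 5 ≤ q
  o : S 0 0
  ol : S l 0
  l3 : 3 ≤ l
  gap : ∀ i, 0 < i → i < l → ¬ S i 0

namespace Nrm

variable {p q l : ℕ} {S : ℕ → ℕ → Prop}

section pat
variable (h : Nrm p q l S) {r1 r2 r3 r4 r5 x1 x2 x3 x4 x5 : ℕ}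
include h

theorem p13524 (h1 : S r1 x1) (h2 : S r2 x2) (h3 : S r3 x3) (h4 : S r4 x4) (h5 : S r5 x5)
    (a1 : r1 < r2) (a2 : r2 < r3) (a3 : r3 < r4) (a4 : r4 < r5)
    (b1 : x1 < x4) (b2 : x4 < x2) (b3 : x2 < x5) (b4 : x5 < x3) : False :=
  h.np _ _ _ _ _ _ _ _ _ _ h1 h2 h3 h4 h5 a1 a2 a3 a4 (Or.inl (Or.inl ⟨b1, b2, b3, b4⟩))

theorem p52413 (h1 : S r1 x1) (h2 : S r2 x2) (h3 : S r3 x3) (h4 : S r4 x4) (h5 : S r5 x5)
    (a1 : r1 < r2) (a2 : r2 < r3) (a3 : r3 < r4) (a4 : r4 < r5)
    (b1 : x4 < x2) (b2 : x2 < x5) (b3 : x5 < x3) (b4 : x3 < x1) : False :=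
  h.np _ _ _ _ _ _ _ _ _ _ h1 h2 h3 h4 h5 a1 a2 a3 a4 (Or.inl (Or.inr (Or.inl ⟨b1, b2, b3, b4⟩)))

theorem p41352 (h1 : S r1 x1) (h2 : S r2 x2) (h3 : S r3 x3) (h4 : S r4 x4) (h5 : S r5 x5)
    (a1 : r1 < r2) (a2 : r2 < r3) (a3 : r3 < r4) (a4 : r4 < r5)
    (b1 : x2 < x5) (b2 : x5 < x3) (b3 : x3 < x1) (b4 : x1 < x4) : False :=
  h.np _ _ _ _ _ _ _ _ _ _ h1 h2 h3 h4 h5 a1 a2 a3 a4
    (Or.inl (Or.inr (Or.inr (Or.inl ⟨b1, b2, b3, b4⟩))))

theorem p35241 (h1 : S r1 x1) (h2 : S r2 x2) (h3 : S r3 x3) (h4 : S r4 x4) (h5 : S r5 x5)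
    (a1 : r1 < r2) (a2 : r2 < r3) (a3 : r3 < r4) (a4 : r4 < r5)
    (b1 : x5 < x3) (b2 : x3 < x1) (b3 : x1 < x4) (b4 : x4 < x2) : False :=
  h.np _ _ _ _ _ _ _ _ _ _ h1 h2 h3 h4 h5 a1 a2 a3 a4
    (Or.inl (Or.inr (Or.inr (Or.inr (Or.inl ⟨b1, b2, b3, b4⟩)))))

theorem p24135 (h1 : S r1 x1) (h2 : S r2 x2) (h3 : S r3 x3) (h4 : S r4 x4) (h5 : S r5 x5)
    (a1 : r1 < r2) (a2 : r2 < r3) (a3 : r3 < r4) (a4 : r4 < r5)
    (b1 : x3 < x1) (b2 : x1 < x4) (b3 : x4 < x2) (b4 : x2 < x5) : False :=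
  h.np _ _ _ _ _ _ _ _ _ _ h1 h2 h3 h4 h5 a1 a2 a3 a4
    (Or.inl (Or.inr (Or.inr (Or.inr (Or.inr ⟨b1, b2, b3, b4⟩)))))

theorem q14253 (h1 : S r1 x1) (h2 : S r2 x2) (h3 : S r3 x3) (h4 : S r4 x4) (h5 : S r5 x5)
    (a1 : r1 < r2) (a2 : r2 < r3) (a3 : r3 < r4) (a4 : r4 < r5)
    (b1 : x1 < x3) (b2 : x3 < x5) (b3 : x5 < x2) (b4 : x2 < x4) : False :=
  h.np _ _ _ _ _ _ _ _ _ _ h1 h2 h3 h4 h5 a1 a2 a3 a4 (Or.inr (Or.inl ⟨b1, b2, b3, b4⟩))

theorem q53142 (h1 : S r1 x1) (h2 : S r2 x2) (h3 : S r3 x3) (h4 : S r4 x4) (h5 : S r5 x5)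
    (a1 : r1 < r2) (a2 : r2 < r3) (a3 : r3 < r4) (a4 : r4 < r5)
    (b1 : x3 < x5) (b2 : x5 < x2) (b3 : x2 < x4) (b4 : x4 < x1) : False :=
  h.np _ _ _ _ _ _ _ _ _ _ h1 h2 h3 h4 h5 a1 a2 a3 a4
    (Or.inr (Or.inr (Or.inl ⟨b1, b2, b3, b4⟩)))

theorem q42531 (h1 : S r1 x1) (h2 : S r2 x2) (h3 : S r3 x3) (h4 : S r4 x4) (h5 : S r5 x5)
    (a1 : r1 < r2) (a2 : r2 < r3) (a3 : r3 < r4) (a4 : r4 < r5)
    (b1 : x5 < x2) (b2 : x2 < x4) (b3 : x4 < x1) (b4 : x1 < x3) : False :=
  h.np _ _ _ _ _ _ _ _ _ _ h1 h2 h3 h4 h5 a1 a2 a3 a4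
    (Or.inr (Or.inr (Or.inr (Or.inl ⟨b1, b2, b3, b4⟩))))

theorem q31425 (h1 : S r1 x1) (h2 : S r2 x2) (h3 : S r3 x3) (h4 : S r4 x4) (h5 : S r5 x5)
    (a1 : r1 < r2) (a2 : r2 < r3) (a3 : r3 < r4) (a4 : r4 < r5)
    (b1 : x2 < x4) (b2 : x4 < x1) (b3 : x1 < x3) (b4 : x3 < x5) : False :=
  h.np _ _ _ _ _ _ _ _ _ _ h1 h2 h3 h4 h5 a1 a2 a3 a4
    (Or.inr (Or.inr (Or.inr (Or.inr (Or.inl ⟨b1, b2, b3, b4⟩)))))

theorem q25314 (h1 : S r1 x1) (h2 : S r2 x2) (h3 : S r3 x3) (h4 : S r4 x4) (h5 : S r5 x5)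
    (a1 : r1 < r2) (a2 : r2 < r3) (a3 : r3 < r4) (a4 : r4 < r5)
    (b1 : x4 < x1) (b2 : x1 < x3) (b3 : x3 < x5) (b4 : x5 < x2) : False :=
  h.np _ _ _ _ _ _ _ _ _ _ h1 h2 h3 h4 h5 a1 a2 a3 a4
    (Or.inr (Or.inr (Or.inr (Or.inr (Or.inr ⟨b1, b2, b3, b4⟩)))))

end pat

variable (h : Nrm p q l S)
include h

/-- a row which uses the column `0` uses no other column -/
theorem leaf0 {i x : ℕ} (h1 : S i 0) (h2 : S i x) : x = 0 := by
  rcases h.star i 0 h1 with h3 | h3
  · exact h3 x h2
  · have h4 := h3 0 h.o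
    have h5 := h3 l h.ol
    have := h.l3
    omega

theorem pos {i x : ℕ} (h1 : 0 < i) (h2 : i < l) (h3 : S i x) : 0 < x := by
  rcases Nat.eq_zero_or_pos x with h4 | h4
  · rw [h4] at h3
    exact absurd h3 (h.gap i h1 h2)
  · exact h4

theorem p2 : 2 * l ≤ p := by
  have := h.arcC 0 l 0 h.o h.ol (by have := h.l3; omega)
  have := h.dom _ _ h.ol
  omega

/-- a column is used at most once between the rows `0` and `l` -/
theorem uq {i j x : ℕ} (h1 : i < l) (h2 : j < l) (h3 : S i x) (h4 : S j x) : i = j := by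
  rcases Nat.lt_trichotomy i j with h5 | h5 | h5
  · have := h.arcC i j x h3 h4 h5
    omega
  · exact h5
  · have := h.arcC j i x h4 h3 h5
    omega

/-- low, high, low -/
theorem lhl {i1 i2 i3 n y1 y2 y3 v : ℕ} (a0 : 0 < i1) (a1 : i1 < i2) (a2 : i2 < i3) (a3 : i3 < l)
    (a4 : l < n) (h1 : S i1 y1) (h2 : S i2 y2) (h3 : S i3 y3) (h4 : S n v) (b1 : y1 < v)
    (b2 : v < y2) (b3 : y3 < v) : False := by
  have c1 := h.pos a0 (by omega) h1
  have c3 := h.pos (by omega) a3 h3
  have o := h.o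
  have ol := h.ol
  have c4 : y1 ≠ y3 := by
    intro he
    rw [he] at h1
    have := h.uq (by omega) a3 h1 h3
    omega
  rcases Nat.lt_or_ge y1 y3 with c5 | c5
  · exact h.q25314 h1 h2 h3 ol h4 a1 a2 a3 a4 c1 c5 b3 b2
  · exact h.p13524 o h1 h2 h3 h4 a0 a1 a2 (by omega) c3 (by omega) b1 b2

/-- high, low, high -/
theorem hlh {i1 i2 i3 n y1 y2 y3 v : ℕ} (a0 : 0 < i1) (a1 : i1 < i2) (a2 : i2 < i3) (a3 : i3 < l)
    (a4 : l < n) (h1 : S i1 y1) (h2 : S i2 y2) (h3 : S i3 y3) (h4 : S n v) (b1 : v < y1)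
    (b2 : y2 < v) (b3 : v < y3) : False := by
  have c2 := h.pos (by omega) (by omega) h2
  have o := h.o
  have ol := h.ol
  have c4 : y1 ≠ y3 := by
    intro he
    rw [he] at h1
    have := h.uq (by omega) a3 h1 h3
    omega
  rcases Nat.lt_or_ge y1 y3 with c5 | c5
  · exact h.q14253 o h1 h2 h3 h4 a0 a1 a2 (by omega) c2 b2 b1 c5
  · exact h.p52413 h1 h2 h3 ol h4 a1 a2 a3 a4 c2 b2 b3 (by omega)

/-- the columns `1` and `q - 1` are not used in the same row -/
theorem ends {i : ℕ} (h1 : S i 1) (h2 : S i (q - 1)) : False := by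
  have := h.hq
  have := h.far _ _ _ _ h1 h2 (by omega)
  unfold nd at this
  omega

/-- the first configuration -/
theorem dc1 {a b n x x' z z' v : ℕ} (a0 : 0 < a) (a1 : a < b) (a2 : b < l) (a3 : l < n)
    (h1 : S a x) (h2 : S a x') (h3 : S b z') (h4 : S b z) (h5 : S n v) (b1 : x < v) (b2 : v < x')
    (b3 : z' < v) (b4 : v < z) : False := by
  have o := h.o
  have ol := h.ol
  have hq := h.hq
  have c1 := h.pos a0 (by omega) h1
  have c3 := h.pos (by omega) a2 h3
  have dz := h.dom _ _ h4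
  have dx := h.dom _ _ h2
  -- other rows of `U`
  have u1 : ∀ r t, 0 < r → r < a → S r t → t = v := by
    intro r t e1 e2 e3
    have e4 := h.pos e1 (by omega) e3
    by_contra e5
    rcases Nat.lt_or_ge t v with e6 | e6
    · rcases Nat.lt_trichotomy t z' with e7 | e7 | e7
      · exact h.q25314 e3 h2 h3 ol h5 e2 a1 a2 a3 e4 e7 b3 b2
      · rw [e7] at e3
        have := h.uq (by omega) a2 e3 h3
        omega
      · exact h.p13524 o e3 h2 h3 h5 e1 e2 a1 (by omega) c3 e7 e6 b2
    · rcases Nat.lt_trichotomy t z with e7 | e7 | e7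
      · exact h.q14253 o e3 h1 h4 h5 e1 e2 a1 (by omega) c1 b1 (by omega) e7
      · rw [e7] at e3
        have := h.uq (by omega) a2 e3 h4
        omega
      · exact h.p52413 e3 h1 h4 ol h5 e2 a1 a2 a3 c1 b1 b4 e7
  have u3 : ∀ r t, b < r → r < l → S r t → t = v := by
    intro r t e1 e2 e3
    have e4 := h.pos (by omega) e2 e3
    by_contra e5
    rcases Nat.lt_or_ge t v with e6 | e6
    · rcases Nat.lt_trichotomy t x with e7 | e7 | e7
      · exact h.p13524 o h1 h4 e3 h5 a0 a1 e1 (by omega) e4 e7 b1 b4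
      · rw [e7] at e3
        have := h.uq (by omega) (by omega) e3 h1
        omega
      · exact h.q25314 h1 h4 e3 ol h5 a1 e1 e2 a3 c1 e7 e6 b4
    · rcases Nat.lt_trichotomy t x' with e7 | e7 | e7
      · exact h.p52413 h2 h3 e3 ol h5 a1 e1 e2 a3 c3 b3 (by omega) e7
      · rw [e7] at e3
        have := h.uq (by omega) (by omega) e3 h2
        omega
      · exact h.q14253 o h2 h3 e3 h5 a0 a1 e1 (by omega) c3 b3 b2 e7
  have u2 : ∀ r t, a < r → r < b → S r t → t = v := by
    intro r t e1 e2 e3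
    have e4 := h.pos (by omega) (by omega) e3
    by_contra e5
    rcases Nat.lt_or_ge t v with e6 | e6
    · rcases Nat.lt_trichotomy x' z with e7 | e7 | e7
      · exact h.q14253 o h2 e3 h4 h5 a0 e1 e2 (by omega) e4 e6 b2 e7
      · rw [e7] at h2
        have := h.uq (by omega) (by omega) h2 h4
        omega
      · exact h.p52413 h2 e3 h4 ol h5 e1 e2 a2 a3 e4 e6 b4 e7
    · rcases Nat.lt_trichotomy x z' with e7 | e7 | e7
      · exact h.q25314 h1 e3 h3 ol h5 e1 e2 a2 a3 c1 e7 b3 (by omega)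
      · rw [e7] at h1
        have := h.uq (by omega) (by omega) h1 h3
        omega
      · exact h.p13524 o h1 e3 h3 h5 a0 e1 e2 (by omega) c3 e7 b1 (by omega)
  -- the rows of the columns `1` and `q - 1`
  have key : ∀ r t, S r t → (t = 1 ∨ t = q - 1) → r = a ∨ r = b ∨ r = n := by
    intro r t e1 e2
    have e3 := h.dom _ _ e1
    by_contra e4
    push Not at e4
    obtain ⟨e4, e5, e6⟩ := e4
    have e7 : r ≠ 0 := by
      rintro rfl
      have := h.leaf0 o e1
      omega
    have e8 : r ≠ l := by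
      rintro rfl
      have := h.leaf0 ol e1
      omega
    rcases Nat.lt_or_ge r l with e9 | e9
    · have : t = v := by
        rcases Nat.lt_or_ge r a with g1 | g1
        · exact u1 r t (by omega) g1 e1
        · rcases Nat.lt_or_ge r b with g2 | g2
          · exact u2 r t (by omega) g2 e1
          · exact u3 r t (by omega) e9 e1
      omega
    · rcases Nat.lt_or_ge r n with g1 | g1
      · rcases Nat.lt_trichotomy t x with g2 | g2 | g2
        · exact h.p13524 o h1 h4 e1 h5 a0 a1 (by omega) g1 (by omega) g2 b1 b4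
        · rw [g2] at e1
          rcases h.star _ _ h1 with g3 | g3
          · have := g3 _ h2
            omega
          · have := g3 _ e1
            omega
        · rcases Nat.lt_trichotomy t x' with g3 | g3 | g3
          · omega
          · rw [g3] at e1
            rcases h.star _ _ h2 with g4 | g4
            · have := g4 _ h1
              omega
            · have := g4 _ e1
              omega
          · exact h.q14253 o h2 h3 e1 h5 a0 a1 (by omega) g1 c3 b3 b2 g3
      · rcases Nat.lt_trichotomy t z' with g2 | g2 | g2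
        · exact h.q53142 h2 h3 ol h5 e1 a1 a2 a3 (by omega) (by omega) g2 b3 b2
        · rw [g2] at e1
          rcases h.star _ _ h3 with g3 | g3
          · have := g3 _ h4
            omega
          · have := g3 _ e1
            omega
        · rcases Nat.lt_trichotomy t z with g3 | g3 | g3
          · omega
          · rw [g3] at e1
            rcases h.star _ _ h4 with g4 | g4
            · have := g4 _ h3
              omega
            · have := g4 _ e1
              omega
          · exact h.p24135 h1 h4 ol h5 e1 a1 a2 a3 (by omega) c1 b1 b4 g3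
  obtain ⟨r, hr⟩ := h.col 1 (by omega)
  obtain ⟨s, hs⟩ := h.col (q - 1) (by omega)
  have k1 := key r 1 hr (Or.inl rfl)
  have k2 := key s (q - 1) hs (Or.inr rfl)
  have k3 : r ≠ s := by
    intro he
    rw [he] at hr
    exact h.ends hr hs
  have v1 : v ≠ 1 := by omega
  have v2 : v ≠ q - 1 := by omega
  by_cases hn : r = n ∨ s = n
  · -- `n` is a hub
    have hv : ∀ j, S j v → j = n := by
      rcases h.star _ _ h5 with g | g
      · rcases hn with g1 | g1
        · rw [g1] at hr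
          exact absurd (g _ hr).symm v1
        · rw [g1] at hs
          exact absurd (g _ hs).symm v2
      · exact g
    have w1 : a = 1 := by
      by_contra g
      obtain ⟨t, ht⟩ := h.row 1 (by have := h.p2; omega)
      have g1 := u1 1 t (by omega) (by omega) ht
      rw [g1] at ht
      have := hv _ ht
      omega
    have w3 : b + 1 = l := by
      by_contra g
      obtain ⟨t, ht⟩ := h.row (b + 1) (by have := h.p2; omega)
      have g1 := u3 _ t (by omega) (by omega) ht
      rw [g1] at ht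
      have := hv _ ht
      omega
    have f1 : ∀ r t, S r t → (t = 1 ∨ t = q - 1) → r ≠ a ∧ r ≠ b := by
      intro r t e1 e2
      have g1 := h.far _ _ _ _ o e1 (by omega)
      have g2 := h.far _ _ _ _ ol e1 (by omega)
      unfold nd at g1 g2
      constructor
      · rintro rfl
        omega
      · rintro rfl
        omega
    have g1 := f1 r 1 hr (Or.inl rfl)
    have g2 := f1 s (q - 1) hs (Or.inr rfl)
    omega
  · -- one in `a`, one in `b`
    have g1 : 2 ≤ a ∧ b + 2 ≤ l := by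
      have f1 : ∀ t, S a t → (t = 1 ∨ t = q - 1) → 2 ≤ a := by
        intro t e1 e2
        have g1 := h.far _ _ _ _ o e1 (by omega)
        unfold nd at g1
        omega
      have f2 : ∀ t, S b t → (t = 1 ∨ t = q - 1) → b + 2 ≤ l := by
        intro t e1 e2
        have g1 := h.far _ _ _ _ ol e1 (by omega)
        unfold nd at g1
        omega
      rcases k1 with g | g | g
      · rcases k2 with g' | g' | g'
        · omega
        · rw [g] at hr
          rw [g'] at hs
          exact ⟨f1 _ hr (Or.inl rfl), f2 _ hs (Or.inr rfl)⟩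
        · omega
      · rcases k2 with g' | g' | g'
        · rw [g] at hr
          rw [g'] at hs
          exact ⟨f1 _ hs (Or.inr rfl), f2 _ hr (Or.inl rfl)⟩
        · omega
        · omega
      · omega
    obtain ⟨t, ht⟩ := h.row 1 (by have := h.p2; omega)
    obtain ⟨t', ht'⟩ := h.row (b + 1) (by have := h.p2; omega)
    have g2 := u1 1 t (by omega) (by omega) ht
    have g3 := u3 (b + 1) t' (by omega) (by omega) ht'
    rw [g2] at ht
    rw [g3] at ht'
    have := h.uq (by omega) (by omega) ht ht'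
    omega

/-- the second configuration -/
theorem gg {a b n n' x x' z v v' : ℕ} (a0 : 0 < a) (a1 : a < b) (a2 : b < l) (a3 : l < n)
    (a4 : l < n') (h1 : S a x) (h2 : S a x') (h3 : S b z) (h5 : S n v) (h6 : S n' v')
    (b1 : x < v) (b2 : v < z) (b3 : z < v') (b4 : v' < x') : False := by
  have o := h.o
  have ol := h.ol
  have hq := h.hq
  have c1 := h.pos a0 (by omega) h1
  have c3 := h.pos (by omega) a2 h3
  have dx := h.dom _ _ h2
  have hnn : n = n' := by
    rcases Nat.lt_trichotomy n n' with e | e | e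
    · exact (h.p24135 h1 h3 ol h5 h6 a1 a2 a3 e c1 b1 b2 b3).elim
    · exact e
    · exact (h.q53142 h2 h3 ol h6 h5 a1 a2 a4 e (by omega) b2 b3 b4).elim
  subst hnn
  -- `n` is a hub
  have hv : ∀ j, S j v → j = n := by
    rcases h.star _ _ h5 with g | g
    · have := g _ h6
      omega
    · exact g
  have hv' : ∀ j, S j v' → j = n := by
    rcases h.star _ _ h6 with g | g
    · have := g _ h5
      omega
    · exact g
  have hx : ∀ j, S j x → j = a := by
    rcases h.star _ _ h1 with g | g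
    · have := g _ h2
      omega
    · exact g
  have hx' : ∀ j, S j x' → j = a := by
    rcases h.star _ _ h2 with g | g
    · have := g _ h1
      omega
    · exact g
  have w1 : a = 1 := by
    by_contra g
    obtain ⟨t, ht⟩ := h.row 1 (by have := h.p2; omega)
    have e4 := h.pos (by omega) (by omega) ht
    rcases Nat.lt_trichotomy t z with e | e | e
    · exact h.q25314 ht h2 h3 ol h6 (by omega) a1 a2 a3 e4 e b3 b4
    · rw [e] at ht
      have := h.uq (by omega) a2 ht h3
      omega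
    · exact h.p52413 ht h1 h3 ol h5 (by omega) a1 a2 a3 c1 b1 b2 e
  have key : ∀ r t, S r t → (t = 1 ∨ t = q - 1) → r = n := by
    intro r t e1 e2
    have e3 := h.dom _ _ e1
    by_contra e6
    have e7 : r ≠ 0 := by
      rintro rfl
      have := h.leaf0 o e1
      omega
    have e8 : r ≠ l := by
      rintro rfl
      have := h.leaf0 ol e1
      omega
    have e9 : r ≠ a := by
      rintro rfl
      have := h.far _ _ _ _ o e1 (by omega)
      unfold nd at this
      omega
    rcases Nat.lt_trichotomy r b with g1 | g1 | g1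
    · -- between `a` and `b`
      rcases e2 with e2 | e2
      · exact h.p52413 h2 e1 h3 ol h5 (by omega) g1 a2 a3 (by omega) (by omega) b2 (by omega)
      · exact h.q25314 h1 e1 h3 ol h6 (by omega) g1 a2 a3 c1 (by omega) b3 (by omega)
    · rw [g1] at e1
      rcases e2 with e2 | e2
      · exact h.dc1 a0 a1 a2 a3 h1 h2 e1 h3 h5 b1 (by omega) (by omega) b2
      · exact h.dc1 a0 a1 a2 a3 h1 h2 h3 e1 h6 (by omega) b4 b3 (by omega)
    · rcases Nat.lt_or_ge r n with g2 | g2
      · rcases e2 with e2 | e2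
        · have : t ≠ x := by
            rintro rfl
            exact e9 (hx _ e1)
          exact h.p13524 o h1 h3 e1 h5 a0 a1 g1 g2 (by omega) (by omega) b1 b2
        · have : t ≠ x' := by
            rintro rfl
            exact e9 (hx' _ e1)
          exact h.q14253 o h2 h3 e1 h6 a0 a1 g1 g2 c3 b3 b4 (by omega)
      · rcases e2 with e2 | e2
        · exact h.q53142 h2 h3 ol h6 e1 a1 a2 a3 (by omega) (by omega) (by omega) b3 b4
        · exact h.p24135 h1 h3 ol h5 e1 a1 a2 a3 (by omega) c1 b1 b2 (by omega)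
  obtain ⟨r, hr⟩ := h.col 1 (by omega)
  obtain ⟨s, hs⟩ := h.col (q - 1) (by omega)
  have k1 := key r 1 hr (Or.inl rfl)
  have k2 := key s (q - 1) hs (Or.inr rfl)
  rw [k1] at hr
  rw [k2] at hs
  exact h.ends hr hs

/-- the third configuration -/
theorem dc3 {a b b' n n' x x' v v' : ℕ} (a0 : 0 < a) (a1 : a < b) (a1' : a < b') (a2 : b < l)
    (a2' : b' < l) (a3 : l < n) (a3' : l < n') (h1 : S a x) (h2 : S a x') (h3 : S b v')
    (h4 : S b' v) (h5 : S n v) (h6 : S n' v') (b1 : x < v) (b2 : v < v') (b3 : v' < x') :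
    False := by
  have o := h.o
  have ol := h.ol
  have hq := h.hq
  have c1 := h.pos a0 (by omega) h1
  have dx := h.dom _ _ h2
  have hx : ∀ j, S j x → j = a := by
    rcases h.star _ _ h1 with g | g
    · have := g _ h2
      omega
    · exact g
  have hx' : ∀ j, S j x' → j = a := by
    rcases h.star _ _ h2 with g | g
    · have := g _ h1
      omega
    · exact g
  have lb : ∀ y, S b y → y = v' := by
    rcases h.star _ _ h3 with g | g
    · exact g
    · have := g _ h6
      omega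
  have lb' : ∀ y, S b' y → y = v := by
    rcases h.star _ _ h4 with g | g
    · exact g
    · have := g _ h5
      omega
  have ln : ∀ y, S n y → y = v := by
    rcases h.star _ _ h5 with g | g
    · exact g
    · have := g _ h4
      omega
  have ln' : ∀ y, S n' y → y = v' := by
    rcases h.star _ _ h6 with g | g
    · exact g
    · have := g _ h3
      omega
  have w1 : a = 1 := by
    by_contra g
    obtain ⟨t, ht⟩ := h.row 1 (by have := h.p2; omega)
    have e4 := h.pos (by omega) (by omega) ht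
    rcases Nat.lt_trichotomy t v with e | e | e
    · exact h.q25314 ht h2 h4 ol h6 (by omega) a1' a2' a3' e4 e b2 b3
    · rw [e] at ht
      have := h.uq (by omega) a2' ht h4
      omega
    · rcases Nat.lt_trichotomy t v' with e' | e' | e'
      · exact h.q14253 o ht h1 h3 h5 (by omega) (by omega) a1 (by omega) c1 b1 e e'
      · rw [e'] at ht
        have := h.uq (by omega) a2 ht h3
        omega
      · exact h.p52413 ht h1 h3 ol h5 (by omega) a1 a2 a3 c1 b1 b2 e'
  obtain ⟨r, hr⟩ := h.col 1 (by omega)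
  obtain ⟨s, hs⟩ := h.col (q - 1) (by omega)
  have dr := h.dom _ _ hr
  have ds := h.dom _ _ hs
  have k1 : n < r ∧ r < n' := by
    have e7 : r ≠ 0 := by
      rintro rfl
      have := h.leaf0 o hr
      omega
    have e8 : r ≠ l := by
      rintro rfl
      have := h.leaf0 ol hr
      omega
    have e9 : r ≠ a := by
      rintro rfl
      have := h.far _ _ _ _ o hr (by omega)
      unfold nd at this
      omega
    have e10 : r ≠ b := by
      rintro rfl
      have := lb _ hr
      omega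
    have e11 : r ≠ n := by
      rintro rfl
      have := ln _ hr
      omega
    have e12 : r ≠ n' := by
      rintro rfl
      have := ln' _ hr
      omega
    have e13 : (1 : ℕ) ≠ x := by
      rintro rfl
      exact e9 (hx _ hr)
    by_contra g
    rcases Nat.lt_or_ge r b with g1 | g1
    · exact h.p52413 h2 hr h3 ol h5 (by omega) g1 a2 a3 (by omega) (by omega) b2 b3
    · rcases Nat.lt_or_ge r n with g2 | g2
      · exact h.p13524 o h1 h3 hr h5 a0 a1 (by omega) g2 (by omega) (by omega) b1 b2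
      · exact h.q53142 h2 h4 ol h6 hr a1' a2' a3' (by omega) (by omega) (by omega) b2 b3
  have k2 : n' < s ∧ s < n := by
    have e7 : s ≠ 0 := by
      rintro rfl
      have := h.leaf0 o hs
      omega
    have e8 : s ≠ l := by
      rintro rfl
      have := h.leaf0 ol hs
      omega
    have e9 : s ≠ a := by
      rintro rfl
      have := h.far _ _ _ _ o hs (by omega)
      unfold nd at this
      omega
    have e10 : s ≠ b' := by
      rintro rfl
      have := lb' _ hs
      omega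
    have e11 : s ≠ n := by
      rintro rfl
      have := ln _ hs
      omega
    have e12 : s ≠ n' := by
      rintro rfl
      have := ln' _ hs
      omega
    have e13 : q - 1 ≠ x' := by
      intro he
      rw [he] at hs
      exact e9 (hx' _ hs)
    by_contra g
    rcases Nat.lt_or_ge s b' with g1 | g1
    · exact h.q25314 h1 hs h4 ol h6 (by omega) g1 a2' a3' c1 b1 b2 (by omega)
    · rcases Nat.lt_or_ge s n' with g2 | g2
      · exact h.q14253 o h2 h4 hs h6 a0 a1' (by omega) g2 (by omega) b2 b3 (by omega)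
      · exact h.p24135 h1 h3 ol h5 hs a1 a2 a3 (by omega) c1 b1 b2 (by omega)
  omega

/-- the configuration with an ascending and a descending pair, first half -/
theorem e2a {α β n α' β' n' x z v x' z' v' : ℕ} (a0 : 0 < α) (a1 : α < β) (a2 : β < l)
    (a3 : l < n) (a0' : 0 < α') (a1' : α' < β') (a2' : β' < l) (a3' : l < n')
    (h1 : S α x) (h2 : S β z) (h3 : S n v) (h1' : S α' x') (h2' : S β' z') (h3' : S n' v')
    (b1 : x < v) (b2 : v < z) (b1' : z' < v') (b2' : v' < x') (hv : v ≤ v') : False := by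
  have e1 : α = α' := by
    rcases Nat.lt_trichotomy α α' with e | e | e
    · exact (h.lhl a0 e a1' a2' a3' h1 h1' h2' h3' (by omega) b2' b1').elim
    · exact e
    · exact (h.hlh a0' e a1 a2 a3 h1' h1 h2 h3 (by omega) b1 b2).elim
  subst e1
  rcases Nat.lt_or_ge v' z with g | g
  · have e2 : β = β' := by
      rcases Nat.lt_trichotomy β β' with e | e | e
      · exact (h.lhl a0 a1 e a2' a3' h1 h2 h2' h3' (by omega) g b1').elim
      · exact e
      · exact (h.hlh a0 a1' e a2 a3' h1' h2' h2 h3' b2' b1' g).elim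
    subst e2
    exact h.dc1 a0 a1 a2 a3' h1 h1' h2' h2 h3' (by omega) b2' b1' g
  · rcases Nat.lt_or_ge z' v with g' | g'
    · have e2 : β = β' := by
        rcases Nat.lt_trichotomy β β' with e | e | e
        · exact (h.lhl a0 a1 e a2' a3 h1 h2 h2' h3 b1 b2 g').elim
        · exact e
        · exact (h.hlh a0 a1' e a2 a3 h1' h2' h2 h3 (by omega) g' b2).elim
      subst e2
      exact h.dc1 a0 a1 a2 a3 h1 h1' h2' h2 h3 b1 (by omega) g' b2
    · rcases Nat.lt_or_ge z v' with k | k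
      · exact h.gg a0 a1 a2 a3 a3' h1 h1' h2 h3 h3' b1 b2 k b2'
      · rcases Nat.lt_or_ge v z' with k' | k'
        · exact h.gg a0 a1' a2' a3 a3' h1 h1' h2' h3 h3' b1 k' b1' b2'
        · have e3 : z = v' := by omega
          have e4 : z' = v := by omega
          subst e3
          subst e4
          exact h.dc3 a0 a1 a1' a2 a2' a3 a3' h1 h1' h2 h2' h3 h3' b1 b2 b2'

end Nrm

end Pool.Agent.V8H16.TC
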