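import Pool.Agent.V8H16.TC.Nrm

set_option autoImplicit false

/-!
# Reflections of cyclic sets of points in normal position
-/

namespace Pool.Agent.V8H16.TC

theorem cy_rot {a b c d e : ℕ} (h : cy a b c d e) : cy b c d e a := by
  unfold cy at *
  omega

theorem cy_rot2 {a b c d e : ℕ} (h : cy a b c d e) : cy c d e a b := cy_rot (cy_rot h)
theorem cy_rot3 {a b c d e : ℕ} (h : cy a b c d e) : cy d e a b c := cy_rot (cy_rot2 h)
theorem cy_rot4 {a b c d e : ℕ} (h : cy a b c d e) : cy e a b c d := cy_rot (cy_rot3 h)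

/-- rotation of the rows -/
theorem star5_rot {x1 x2 x3 x4 x5 : ℕ} (h : star5 x1 x2 x3 x4 x5) : star5 x2 x3 x4 x5 x1 := by
  rcases h with h | h
  · -- cy x1 x4 x2 x5 x3 gives cy x2 x5 x3 x1 x4
    exact Or.inl (cy_rot2 h)
  · -- cy x1 x3 x5 x2 x4 gives cy x2 x4 x1 x3 x5
    exact Or.inr (cy_rot3 h)

theorem star5_rot2 {x1 x2 x3 x4 x5 : ℕ} (h : star5 x1 x2 x3 x4 x5) : star5 x3 x4 x5 x1 x2 :=
  star5_rot (star5_rot h)
theorem star5_rot3 {x1 x2 x3 x4 x5 : ℕ} (h : star5 x1 x2 x3 x4 x5) : star5 x4 x5 x1 x2 x3 :=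
  star5_rot (star5_rot2 h)
theorem star5_rot4 {x1 x2 x3 x4 x5 : ℕ} (h : star5 x1 x2 x3 x4 x5) : star5 x5 x1 x2 x3 x4 :=
  star5_rot (star5_rot3 h)

/-- reversal of the rows -/
theorem star5_rev {x1 x2 x3 x4 x5 : ℕ} (h : star5 x1 x2 x3 x4 x5) : star5 x5 x4 x3 x2 x1 := by
  rcases h with h | h
  · -- cy x1 x4 x2 x5 x3: want cy x5 x3 x1 x4 x2
    exact Or.inr (cy_rot3 h)
  · -- cy x1 x3 x5 x2 x4: want cy x5 x2 x4 x1 x3
    exact Or.inl (cy_rot2 h)

/-- reversed cyclic order -/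
theorem star5_of_rev {x1 x2 x3 x4 x5 : ℕ} (h : cy x3 x5 x2 x4 x1 ∨ cy x4 x2 x5 x3 x1) :
    star5 x1 x2 x3 x4 x5 := by
  rcases h with h | h
  · exact Or.inr (cy_rot4 h)
  · exact Or.inl (cy_rot4 h)

/-- reflection of the rows -/
def rr (p l i : ℕ) : ℕ := if i ≤ l then l - i else p + l - i

/-- reflection of the columns -/
def cr (q x : ℕ) : ℕ := if x = 0 then 0 else q - x

theorem cr_ord {q a b : ℕ} (ha : a < q) (hb : b < q) (h : cr q a < cr q b) :
    0 < b ∧ (a = 0 ∨ b < a) := by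
  unfold cr at h
  split_ifs at h <;> omega

theorem cy_cr {q a b c d e : ℕ} (ha : a < q) (hb : b < q) (hc : c < q) (hd : d < q) (he : e < q)
    (h : cy (cr q a) (cr q b) (cr q c) (cr q d) (cr q e)) : cy e d c b a := by
  rcases h with ⟨h1, h2, h3, h4⟩ | ⟨h1, h2, h3, h4⟩ | ⟨h1, h2, h3, h4⟩ | ⟨h1, h2, h3, h4⟩ |
    ⟨h1, h2, h3, h4⟩
  · have k1 := cr_ord ha hb h1
    have k2 := cr_ord hb hc h2
    have k3 := cr_ord hc hd h3
    have k4 := cr_ord hd he h4
    clear h1 h2 h3 h4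
    unfold cy
    omega
  · have k1 := cr_ord hb hc h1
    have k2 := cr_ord hc hd h2
    have k3 := cr_ord hd he h3
    have k4 := cr_ord he ha h4
    clear h1 h2 h3 h4
    unfold cy
    omega
  · have k1 := cr_ord hc hd h1
    have k2 := cr_ord hd he h2
    have k3 := cr_ord he ha h3
    have k4 := cr_ord ha hb h4
    clear h1 h2 h3 h4
    unfold cy
    omega
  · have k1 := cr_ord hd he h1
    have k2 := cr_ord he ha h2
    have k3 := cr_ord ha hb h3
    have k4 := cr_ord hb hc h4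
    clear h1 h2 h3 h4
    unfold cy
    omega
  · have k1 := cr_ord he ha h1
    have k2 := cr_ord ha hb h2
    have k3 := cr_ord hb hc h3
    have k4 := cr_ord hc hd h4
    clear h1 h2 h3 h4
    unfold cy
    omega

theorem rr_lt {p l i : ℕ} (hl : l < p) (hi : i < p) : rr p l i < p := by
  unfold rr
  split_ifs <;> omega

theorem rr_rr {p l i : ℕ} (hi : i < p) : rr p l (rr p l i) = i := by
  unfold rr
  split_ifs <;> omega

theorem cr_lt {q x : ℕ} (hx : x < q) : cr q x < q := by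
  unfold cr
  split_ifs <;> omega

theorem cr_cr {q x : ℕ} (hx : x < q) : cr q (cr q x) = x := by
  unfold cr
  split_ifs <;> omega

theorem nd_rr {p l i j : ℕ} (hl : l < p) (hi : i < p) (hj : j < p) :
    nd (rr p l i) (rr p l j) = nd i j ∨ nd (rr p l i) (rr p l j) + nd i j = p := by
  unfold rr nd
  split_ifs <;> omega

theorem nd_cr {q x y : ℕ} (hx : x < q) (hy : y < q) :
    nd (cr q x) (cr q y) = nd x y ∨ nd (cr q x) (cr q y) + nd x y = q := by
  unfold cr nd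
  split_ifs <;> omega

namespace Nrm

variable {p q l : ℕ} {S : ℕ → ℕ → Prop}

theorem lp (h : Nrm p q l S) : l < p := (h.dom _ _ h.ol).1

/-- the cyclic form of `np` -/
theorem npc (h : Nrm p q l S) {r1 r2 r3 r4 r5 x1 x2 x3 x4 x5 : ℕ} (h1 : S r1 x1) (h2 : S r2 x2)
    (h3 : S r3 x3) (h4 : S r4 x4) (h5 : S r5 x5) (hr : cy r1 r2 r3 r4 r5)
    (hs : star5 x1 x2 x3 x4 x5) : False := by
  rcases hr with ⟨a, b, c, d⟩ | ⟨a, b, c, d⟩ | ⟨a, b, c, d⟩ | ⟨a, b, c, d⟩ | ⟨a, b, c, d⟩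
  · exact h.np _ _ _ _ _ _ _ _ _ _ h1 h2 h3 h4 h5 a b c d hs
  · exact h.np _ _ _ _ _ _ _ _ _ _ h2 h3 h4 h5 h1 a b c d (star5_rot hs)
  · exact h.np _ _ _ _ _ _ _ _ _ _ h3 h4 h5 h1 h2 a b c d (star5_rot2 hs)
  · exact h.np _ _ _ _ _ _ _ _ _ _ h4 h5 h1 h2 h3 a b c d (star5_rot3 hs)
  · exact h.np _ _ _ _ _ _ _ _ _ _ h5 h1 h2 h3 h4 a b c d (star5_rot4 hs)

theorem cy_rr {p l a b c d e : ℕ} (hl : l < p) (he : e < p) (h1 : a < b) (h2 : b < c) (h3 : c < d)
    (h4 : d < e) : cy (rr p l e) (rr p l d) (rr p l c) (rr p l b) (rr p l a) := by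
  unfold cy rr
  split_ifs <;> omega

/-- reflection of the rows -/
theorem rowRefl (h : Nrm p q l S) : Nrm p q l (fun i x => i < p ∧ S (rr p l i) x) := by
  have hl := h.lp
  have l3 := h.l3
  refine ⟨?_, ?_, ?_, ?_, ?_, ?_, ?_, ?_, h.hq, ?_, ?_, l3, ?_⟩
  · rintro i x ⟨h1, h2⟩
    exact ⟨h1, (h.dom _ _ h2).2⟩
  · intro i hi
    obtain ⟨x, hx⟩ := h.row _ (rr_lt hl hi)
    exact ⟨x, hi, hx⟩
  · intro x hx
    obtain ⟨i, hi⟩ := h.col x hx
    have h1 := (h.dom _ _ hi).1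
    refine ⟨rr p l i, rr_lt hl h1, ?_⟩
    rw [rr_rr h1]
    exact hi
  · rintro i x j y ⟨h1, h2⟩ ⟨h3, h4⟩ h5
    have h6 := nd_rr hl h1 h3
    have h7 : rr p l i ≠ rr p l j ∨ x ≠ y := by
      rcases h5 with h5 | h5
      · left
        intro he
        have := congrArg (rr p l) he
        rw [rr_rr h1, rr_rr h3] at this
        exact h5 this
      · exact Or.inr h5
    have h8 := h.far _ _ _ _ h2 h4 h7
    have h9 : nd i j ≤ p := by unfold nd; omega
    rcases h6 with h6 | h6 <;> omega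
  · rintro i x ⟨h1, h2⟩
    rcases h.star _ _ h2 with h3 | h3
    · exact Or.inl fun y hy => h3 y hy.2
    · right
      rintro j ⟨h4, h5⟩
      have := congrArg (rr p l) (h3 _ h5)
      rwa [rr_rr h1, rr_rr h4] at this
  · rintro i j x ⟨h1, h2⟩ ⟨h3, h4⟩ h5
    rcases Nat.lt_trichotomy (rr p l i) (rr p l j) with h6 | h6 | h6
    · have h7 := h.arcC _ _ _ h2 h4 h6
      have h8 := nd_rr hl h1 h3
      unfold nd at h8
      omega
    · have := congrArg (rr p l) h6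
      rw [rr_rr h1, rr_rr h3] at this
      omega
    · have h7 := h.arcC _ _ _ h4 h2 h6
      have h8 := nd_rr hl h1 h3
      unfold nd at h8
      omega
  · rintro i x y ⟨_, h2⟩ ⟨_, h4⟩ h5
    exact h.arcD _ _ _ h2 h4 h5
  · rintro r1 r2 r3 r4 r5 x1 x2 x3 x4 x5 ⟨_, h1⟩ ⟨_, h2⟩ ⟨_, h3⟩ ⟨_, h4⟩ ⟨g5, h5⟩ a b c d hs
    exact h.npc h5 h4 h3 h2 h1 (cy_rr hl g5 a b c d) (star5_rev hs)
  · refine ⟨by omega, ?_⟩
    have : rr p l 0 = l := by unfold rr; simp
    rw [this]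
    exact h.ol
  · refine ⟨hl, ?_⟩
    have : rr p l l = 0 := by unfold rr; simp
    rw [this]
    exact h.o
  · rintro i h1 h2 ⟨_, h3⟩
    refine h.gap (rr p l i) ?_ ?_ h3 <;>
    · unfold rr
      split_ifs <;> omega

/-- reflection of the columns -/
theorem colRefl (h : Nrm p q l S) : Nrm p q l (fun i x => x < q ∧ S i (cr q x)) := by
  have hl := h.lp
  have l3 := h.l3
  have hq := h.hq
  refine ⟨?_, ?_, ?_, ?_, ?_, ?_, ?_, ?_, hq, ?_, ?_, l3, ?_⟩
  · rintro i x ⟨h1, h2⟩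
    exact ⟨(h.dom _ _ h2).1, h1⟩
  · intro i hi
    obtain ⟨x, hx⟩ := h.row _ hi
    have h1 := (h.dom _ _ hx).2
    refine ⟨cr q x, cr_lt h1, ?_⟩
    rw [cr_cr h1]
    exact hx
  · intro x hx
    obtain ⟨i, hi⟩ := h.col _ (cr_lt hx)
    exact ⟨i, hx, hi⟩
  · rintro i x j y ⟨h1, h2⟩ ⟨h3, h4⟩ h5
    have h6 := nd_cr h1 h3
    have h7 : i ≠ j ∨ cr q x ≠ cr q y := by
      rcases h5 with h5 | h5
      · exact Or.inl h5
      · right
        intro he
        have := congrArg (cr q) he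
        rw [cr_cr h1, cr_cr h3] at this
        exact h5 this
    have h8 := h.far _ _ _ _ h2 h4 h7
    have h9 : nd x y ≤ q := by unfold nd; omega
    rcases h6 with h6 | h6 <;> omega
  · rintro i x ⟨h1, h2⟩
    rcases h.star _ _ h2 with h3 | h3
    · left
      rintro y ⟨h4, h5⟩
      have := congrArg (cr q) (h3 _ h5)
      rwa [cr_cr h1, cr_cr h4] at this
    · exact Or.inr fun y hy => h3 y hy.2
  · rintro i j x ⟨_, h2⟩ ⟨_, h4⟩ h5
    exact h.arcC _ _ _ h2 h4 h5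
  · rintro i x y ⟨h1, h2⟩ ⟨h3, h4⟩ h5
    rcases Nat.lt_trichotomy (cr q x) (cr q y) with h6 | h6 | h6
    · have h7 := h.arcD _ _ _ h2 h4 h6
      have h8 := nd_cr h1 h3
      unfold nd at h8
      omega
    · have := congrArg (cr q) h6
      rw [cr_cr h1, cr_cr h3] at this
      omega
    · have h7 := h.arcD _ _ _ h4 h2 h6
      have h8 := nd_cr h1 h3
      unfold nd at h8
      omega
  · rintro r1 r2 r3 r4 r5 x1 x2 x3 x4 x5 ⟨g1, h1⟩ ⟨g2, h2⟩ ⟨g3, h3⟩ ⟨g4, h4⟩ ⟨g5, h5⟩ a b c d hs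
    refine h.np _ _ _ _ _ _ _ _ _ _ h1 h2 h3 h4 h5 a b c d ?_
    -- the reflection is an involution
    have e1 := cr_cr g1
    have e2 := cr_cr g2
    have e3 := cr_cr g3
    have e4 := cr_cr g4
    have e5 := cr_cr g5
    rw [← e1, ← e2, ← e3, ← e4, ← e5] at hs
    have k1 := cr_lt g1
    have k2 := cr_lt g2
    have k3 := cr_lt g3
    have k4 := cr_lt g4
    have k5 := cr_lt g5
    refine star5_of_rev ?_
    rcases hs with hs | hs
    · exact Or.inl (cy_cr k1 k4 k2 k5 k3 hs)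
    · exact Or.inr (cy_cr k1 k3 k5 k2 k4 hs)
  · refine ⟨by omega, ?_⟩
    have : cr q 0 = 0 := by unfold cr; simp
    rw [this]
    exact h.o
  · refine ⟨by omega, ?_⟩
    have : cr q 0 = 0 := by unfold cr; simp
    rw [this]
    exact h.ol
  · rintro i h1 h2 ⟨_, h3⟩
    have : cr q 0 = 0 := by unfold cr; simp
    rw [this] at h3
    exact h.gap i h1 h2 h3

/-- an ascending pair which straddles a column of the other side -/
def Ta (l : ℕ) (S : ℕ → ℕ → Prop) : Prop := ∃ α β n x z v, 0 < α ∧ α < β ∧ β < l ∧ l < n ∧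
  S α x ∧ S β z ∧ S n v ∧ x < v ∧ v < z

/-- a descending pair which straddles a column of the other side -/
def Td (l : ℕ) (S : ℕ → ℕ → Prop) : Prop := ∃ α β n x z v, 0 < α ∧ α < β ∧ β < l ∧ l < n ∧
  S α x ∧ S β z ∧ S n v ∧ z < v ∧ v < x

theorem e2 (h : Nrm p q l S) (ha : Ta l S) (hd : Td l S) : False := by
  obtain ⟨α, β, n, x, z, v, a0, a1, a2, a3, h1, h2, h3, b1, b2⟩ := ha
  obtain ⟨α', β', n', x', z', v', a0', a1', a2', a3', h1', h2', h3', b1', b2'⟩ := hd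
  rcases Nat.le_total v v' with hv | hv
  · exact h.e2a a0 a1 a2 a3 a0' a1' a2' a3' h1 h2 h3 h1' h2' h3' b1 b2 b1' b2' hv
  · have hl := h.lp
    have hn := h.dom _ _ h3
    have hn' := h.dom _ _ h3'
    have e : ∀ i, i < l → rr p l (l - i) = i := by
      intro i hi
      unfold rr
      rw [if_pos (by omega)]
      omega
    have e' : ∀ i, l < i → i < p → rr p l (p + l - i) = i := by
      intro i hi h2
      unfold rr
      rw [if_neg (by omega)]
      omega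
    refine h.rowRefl.e2a (α := l - β') (β := l - α') (n := p + l - n') (α' := l - β)
      (β' := l - α) (n' := p + l - n) (x := z') (z := x') (v := v') (x' := z) (z' := x) (v' := v)
      (by omega) (by omega) (by omega) (by omega) (by omega) (by omega) (by omega) (by omega)
      ?_ ?_ ?_ ?_ ?_ ?_ b1' b2' b1 b2 hv
    · exact ⟨by omega, by rw [e _ a2']; exact h2'⟩
    · exact ⟨by omega, by rw [e _ (by omega)]; exact h1'⟩
    · exact ⟨by omega, by rw [e' _ a3' hn'.1]; exact h3'⟩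
    · exact ⟨by omega, by rw [e _ a2]; exact h2⟩
    · exact ⟨by omega, by rw [e _ (by omega)]; exact h1⟩
    · exact ⟨by omega, by rw [e' _ a3 hn.1]; exact h3⟩

end Nrm

end Pool.Agent.V8H16.TC
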