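import Mathlib.Data.Finset.Card
import Mathlib.Data.Finset.Max
import Mathlib.Data.Nat.Find
import Mathlib.Tactic

set_option autoImplicit false

/-!
# Windows: sets of points without close pairs contain one of the patterns 2413, 3142
-/

namespace Pool.Agent.V8H16.TC

/-- distance of two natural numbers -/
def nd (i j : ℕ) : ℕ := (i - j) + (j - i)

/-- The set `S` of points in the window with the rows `i0, ..., i1` and the columns `j0, ..., j1`: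
the interior rows and columns are not empty, there are no two different points at distance at most
two, and no four points in different rows and columns form one of the patterns 2413 and 3142. -/
structure Win (S : Finset (ℕ × ℕ)) (i0 i1 j0 j1 : ℕ) : Prop where
  bd : ∀ i x, (i, x) ∈ S → i0 ≤ i ∧ i ≤ i1 ∧ j0 ≤ x ∧ x ≤ j1
  row : ∀ i, i0 < i → i < i1 → ∃ x, (i, x) ∈ S
  col : ∀ x, j0 < x → x < j1 → ∃ i, (i, x) ∈ S
  far : ∀ i x j y, (i, x) ∈ S → (j, y) ∈ S → (i ≠ j ∨ x ≠ y) → 3 ≤ nd i j + nd x y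
  pa : ∀ r1 r2 r3 r4 x1 x2 x3 x4, (r1, x1) ∈ S → (r2, x2) ∈ S → (r3, x3) ∈ S → (r4, x4) ∈ S →
    r1 < r2 → r2 < r3 → r3 < r4 → x3 < x1 → x1 < x4 → x4 < x2 → False
  pb : ∀ r1 r2 r3 r4 x1 x2 x3 x4, (r1, x1) ∈ S → (r2, x2) ∈ S → (r3, x3) ∈ S → (r4, x4) ∈ S →
    r1 < r2 → r2 < r3 → r3 < r4 → x2 < x4 → x4 < x1 → x1 < x3 → False

variable {S : Finset (ℕ × ℕ)} {i0 i1 j0 j1 : ℕ}

/-- transposition -/
theorem Win.swap (h : Win S i0 i1 j0 j1) : Win (S.image Prod.swap) j0 j1 i0 i1 := by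
  have hm : ∀ i x, (i, x) ∈ S.image Prod.swap ↔ (x, i) ∈ S := by
    intro i x
    constructor
    · intro hx
      obtain ⟨⟨a, b⟩, h1, h2⟩ := Finset.mem_image.1 hx
      simp only [Prod.swap_prod_mk, Prod.mk.injEq] at h2
      obtain ⟨rfl, rfl⟩ := h2
      exact h1
    · intro hx
      exact Finset.mem_image.2 ⟨(x, i), hx, rfl⟩
  refine ⟨?_, ?_, ?_, ?_, ?_, ?_⟩
  · intro i x hx
    have := h.bd x i ((hm i x).1 hx)
    tauto
  · intro i h1 h2
    obtain ⟨x, hx⟩ := h.col i h1 h2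
    exact ⟨x, (hm _ _).2 hx⟩
  · intro i h1 h2
    obtain ⟨x, hx⟩ := h.row i h1 h2
    exact ⟨x, (hm _ _).2 hx⟩
  · intro i x j y h1 h2 h3
    have := h.far x i y j ((hm _ _).1 h1) ((hm _ _).1 h2) (by tauto)
    omega
  · intro r1 r2 r3 r4 x1 x2 x3 x4 h1 h2 h3 h4 l1 l2 l3 m1 m2 m3
    exact h.pb x3 x1 x4 x2 r3 r1 r4 r2 ((hm _ _).1 h3) ((hm _ _).1 h1) ((hm _ _).1 h4)
      ((hm _ _).1 h2) m1 m2 m3 l1 l2 l3
  · intro r1 r2 r3 r4 x1 x2 x3 x4 h1 h2 h3 h4 l1 l2 l3 m1 m2 m3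
    exact h.pa x2 x4 x1 x3 r2 r4 r1 r3 ((hm _ _).1 h2) ((hm _ _).1 h4) ((hm _ _).1 h1)
      ((hm _ _).1 h3) m1 m2 m3 l1 l2 l3

/-- the map which reverses the columns -/
def flp (j0 j1 : ℕ) (a : ℕ × ℕ) : ℕ × ℕ := (a.1, j0 + j1 - a.2)

theorem mem_flp (h : Win S i0 i1 j0 j1) (i x : ℕ) :
    (i, x) ∈ S.image (flp j0 j1) ↔ (x ≤ j0 + j1 ∧ (i, j0 + j1 - x) ∈ S) := by
  constructor
  · intro hx
    obtain ⟨⟨a, b⟩, h1, h2⟩ := Finset.mem_image.1 hx
    simp only [flp, Prod.mk.injEq] at h2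
    obtain ⟨rfl, rfl⟩ := h2
    have := h.bd _ _ h1
    refine ⟨by omega, ?_⟩
    have e : j0 + j1 - (j0 + j1 - b) = b := by omega
    rw [e]; exact h1
  · rintro ⟨h0, hx⟩
    refine Finset.mem_image.2 ⟨(i, j0 + j1 - x), hx, ?_⟩
    simp only [flp, Prod.mk.injEq, true_and]
    omega

/-- reflection of the columns -/
theorem Win.flip (h : Win S i0 i1 j0 j1) : Win (S.image (flp j0 j1)) i0 i1 j0 j1 := by
  have hm := mem_flp h
  refine ⟨?_, ?_, ?_, ?_, ?_, ?_⟩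
  · intro i x hx
    have h1 := (hm i x).1 hx
    have := h.bd _ _ h1.2
    omega
  · intro i h1 h2
    obtain ⟨x, hx⟩ := h.row i h1 h2
    have := h.bd _ _ hx
    refine ⟨j0 + j1 - x, (hm _ _).2 ⟨by omega, ?_⟩⟩
    have e : j0 + j1 - (j0 + j1 - x) = x := by omega
    rw [e]; exact hx
  · intro x h1 h2
    obtain ⟨i, hx⟩ := h.col (j0 + j1 - x) (by omega) (by omega)
    exact ⟨i, (hm _ _).2 ⟨by omega, hx⟩⟩
  · intro i x j y h1 h2 h3
    have h1' := (hm _ _).1 h1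
    have h2' := (hm _ _).1 h2
    have b1 := h.bd _ _ h1'.2
    have b2 := h.bd _ _ h2'.2
    have := h.far _ _ _ _ h1'.2 h2'.2 (by omega)
    unfold nd at *
    omega
  · intro r1 r2 r3 r4 x1 x2 x3 x4 h1 h2 h3 h4 l1 l2 l3 m1 m2 m3
    have h1' := (hm _ _).1 h1
    have h2' := (hm _ _).1 h2
    have h3' := (hm _ _).1 h3
    have h4' := (hm _ _).1 h4
    exact h.pb _ _ _ _ _ _ _ _ h1'.2 h2'.2 h3'.2 h4'.2 l1 l2 l3 (by omega) (by omega) (by omega)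
  · intro r1 r2 r3 r4 x1 x2 x3 x4 h1 h2 h3 h4 l1 l2 l3 m1 m2 m3
    have h1' := (hm _ _).1 h1
    have h2' := (hm _ _).1 h2
    have h3' := (hm _ _).1 h3
    have h4' := (hm _ _).1 h4
    exact h.pa _ _ _ _ _ _ _ _ h1'.2 h2'.2 h3'.2 h4'.2 l1 l2 l3 (by omega) (by omega) (by omega)

/-- a closed smaller window -/
theorem Win.sub (h : Win S i0 i1 j0 j1) {k0 k1 l0 l1 : ℕ} (hk0 : i0 ≤ k0) (hk1 : k1 ≤ i1)
    (hl0 : j0 ≤ l0) (hl1 : l1 ≤ j1)
    (hr : ∀ i x, k0 < i → i < k1 → (i, x) ∈ S → l0 ≤ x ∧ x ≤ l1)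
    (hc : ∀ i x, l0 < x → x < l1 → (i, x) ∈ S → k0 ≤ i ∧ i ≤ k1) :
    Win (S.filter (fun a => k0 ≤ a.1 ∧ a.1 ≤ k1 ∧ l0 ≤ a.2 ∧ a.2 ≤ l1)) k0 k1 l0 l1 := by
  have hm : ∀ i x, (i, x) ∈ S.filter (fun a => k0 ≤ a.1 ∧ a.1 ≤ k1 ∧ l0 ≤ a.2 ∧ a.2 ≤ l1) ↔
      ((i, x) ∈ S ∧ k0 ≤ i ∧ i ≤ k1 ∧ l0 ≤ x ∧ x ≤ l1) := by
    intro i x
    rw [Finset.mem_filter]
  refine ⟨?_, ?_, ?_, ?_, ?_, ?_⟩
  · intro i x hx
    exact ((hm i x).1 hx).2
  · intro i h1 h2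
    obtain ⟨x, hx⟩ := h.row i (by omega) (by omega)
    have := hr i x h1 h2 hx
    exact ⟨x, (hm _ _).2 ⟨hx, by omega, by omega, this.1, this.2⟩⟩
  · intro x h1 h2
    obtain ⟨i, hx⟩ := h.col x (by omega) (by omega)
    have := hc i x h1 h2 hx
    exact ⟨i, (hm _ _).2 ⟨hx, this.1, this.2, by omega, by omega⟩⟩
  · intro i x j y h1 h2 h3
    exact h.far _ _ _ _ ((hm _ _).1 h1).1 ((hm _ _).1 h2).1 h3
  · intro r1 r2 r3 r4 x1 x2 x3 x4 h1 h2 h3 h4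
    exact h.pa _ _ _ _ _ _ _ _ ((hm _ _).1 h1).1 ((hm _ _).1 h2).1 ((hm _ _).1 h3).1
      ((hm _ _).1 h4).1
  · intro r1 r2 r3 r4 x1 x2 x3 x4 h1 h2 h3 h4
    exact h.pb _ _ _ _ _ _ _ _ ((hm _ _).1 h1).1 ((hm _ _).1 h2).1 ((hm _ _).1 h3).1
      ((hm _ _).1 h4).1

/-- windows with few columns -/
theorem Win.thin (h : Win S i0 i1 j0 j1) (hj : j0 < j1) (ha : i0 + 3 ≤ i1) (hb : j1 ≤ j0 + 2) :
    False := by
  obtain ⟨x, hx⟩ := h.row (i0 + 1) (by omega) (by omega)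
  obtain ⟨y, hy⟩ := h.row (i0 + 2) (by omega) (by omega)
  have b1 := h.bd _ _ hx
  have b2 := h.bd _ _ hy
  have f1 := h.far _ _ _ _ hx hy (by omega)
  unfold nd at f1
  obtain ⟨r, hr⟩ := h.col (j0 + 1) (by omega) (by omega)
  have b3 := h.bd _ _ hr
  have f2 := h.far _ _ _ _ hx hr (by omega)
  have f3 := h.far _ _ _ _ hy hr (by omega)
  unfold nd at f2 f3
  obtain ⟨z, hz⟩ := h.row (i0 + 3) (by omega) (by omega)
  have b4 := h.bd _ _ hz
  have f4 := h.far _ _ _ _ hx hz (by omega)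
  have f5 := h.far _ _ _ _ hy hz (by omega)
  unfold nd at f4 f5
  omega

/-- the induction hypothesis: no smaller windows -/
def NoWin (n : ℕ) : Prop := ∀ (S : Finset (ℕ × ℕ)) (i0 i1 j0 j1 : ℕ), Win S i0 i1 j0 j1 →
  i0 < i1 → j0 < j1 → (i0 + 3 ≤ i1 ∨ j0 + 3 ≤ j1) → (i1 - i0) + (j1 - j0) + S.card < n → False

/-- the hypotheses of the main step -/
structure Stp (S : Finset (ℕ × ℕ)) (i0 i1 j0 j1 : ℕ) : Prop extends Win S i0 i1 j0 j1 where
  hi : i0 + 3 ≤ i1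
  hj : j0 + 3 ≤ j1
  leaf : ∀ i x, (i, x) ∈ S → (i0 < i ∧ i < i1 ∧ ∀ y, (i, y) ∈ S → y = x) ∨
    (j0 < x ∧ x < j1 ∧ ∀ j, (j, x) ∈ S → j = i)
  hl : ∃ i, i0 < i ∧ i < i1 ∧ (i, j0) ∈ S
  hr : ∃ i, i0 < i ∧ i < i1 ∧ (i, j1) ∈ S
  ht : ∃ x, j0 < x ∧ x < j1 ∧ (i0, x) ∈ S
  hb : ∃ x, j0 < x ∧ x < j1 ∧ (i1, x) ∈ S

theorem Stp.rowleaf (h : Stp S i0 i1 j0 j1) {i x : ℕ} (hx : (i, x) ∈ S)
    (h1 : x = j0 ∨ x = j1) : ∀ y, (i, y) ∈ S → y = x := by
  rcases h.leaf i x hx with h2 | h2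
  · exact h2.2.2
  · omega

theorem Stp.colleaf (h : Stp S i0 i1 j0 j1) {i x : ℕ} (hx : (i, x) ∈ S)
    (h1 : i = i0 ∨ i = i1) : ∀ j, (j, x) ∈ S → j = i := by
  rcases h.leaf i x hx with h2 | h2
  · omega
  · exact h2.2.2

/-- the corner: a smaller window -/
theorem Stp.inc {n : ℕ} (hn : NoWin n) (h : Stp S i0 i1 j0 j1)
    (hc : (i1 - i0) + (j1 - j0) + S.card ≤ n)
    (hR : ∀ p q, i0 < p → p < i1 → (p, j0) ∈ S → i0 < q → q < i1 → (q, j1) ∈ S → p < q)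
    (hK : ∀ k l, j0 < k → k < j1 → (i0, k) ∈ S → j0 < l → l < j1 → (i1, l) ∈ S → k < l) :
    False := by
  classical
  -- first row at the left boundary
  obtain ⟨p, ⟨hp1, hp2, hp3⟩, hpm⟩ : ∃ p, (i0 < p ∧ p < i1 ∧ (p, j0) ∈ S) ∧
      ∀ r, r < p → ¬ (i0 < r ∧ r < i1 ∧ (r, j0) ∈ S) :=
    ⟨Nat.find h.hl, Nat.find_spec h.hl, fun r hr => Nat.find_min h.hl hr⟩
  obtain ⟨k, ⟨hk1, hk2, hk3⟩, hkm⟩ : ∃ k, (j0 < k ∧ k < j1 ∧ (i0, k) ∈ S) ∧
      ∀ r, r < k → ¬ (j0 < r ∧ r < j1 ∧ (i0, r) ∈ S) :=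
    ⟨Nat.find h.ht, Nat.find_spec h.ht, fun r hr => Nat.find_min h.ht hr⟩
  -- the last column of the rows above
  obtain ⟨J, hJk, hJr, hJm⟩ : ∃ J, k ≤ J ∧ (∀ i x, i0 < i → i < p → (i, x) ∈ S → x ≤ J) ∧
      (J = k ∨ ∃ i, i0 < i ∧ i < p ∧ (i, J) ∈ S) := by
    have hb : ∃ J, k ≤ J ∧ (∀ i x, i0 < i → i < p → (i, x) ∈ S → x ≤ J) :=
      ⟨j1, by omega, fun i x _ _ hx => (h.bd _ _ hx).2.2.2⟩
    obtain ⟨h1, h2⟩ := Nat.find_spec hb
    refine ⟨Nat.find hb, h1, h2, ?_⟩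
    by_contra hcon
    push Not at hcon
    obtain ⟨hc1, hc2⟩ := hcon
    refine Nat.find_min hb (m := Nat.find hb - 1) (by omega) ⟨by omega, fun i x h3 h4 h5 => ?_⟩
    have h6 := h2 i x h3 h4 h5
    rcases Nat.lt_or_ge x (Nat.find hb) with h7 | h7
    · omega
    · have : x = Nat.find hb := by omega
      rw [this] at h5
      exact absurd h5 (hc2 i h3 h4)
  obtain ⟨I, hIp, hIr, hIm⟩ : ∃ I, p ≤ I ∧ (∀ i x, j0 < x → x < k → (i, x) ∈ S → i ≤ I) ∧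
      (I = p ∨ ∃ x, j0 < x ∧ x < k ∧ (I, x) ∈ S) := by
    have hb : ∃ I, p ≤ I ∧ (∀ i x, j0 < x → x < k → (i, x) ∈ S → i ≤ I) :=
      ⟨i1, by omega, fun i x _ _ hx => (h.bd _ _ hx).2.1⟩
    obtain ⟨h1, h2⟩ := Nat.find_spec hb
    refine ⟨Nat.find hb, h1, h2, ?_⟩
    by_contra hcon
    push Not at hcon
    obtain ⟨hc1, hc2⟩ := hcon
    refine Nat.find_min hb (m := Nat.find hb - 1) (by omega) ⟨by omega, fun i x h3 h4 h5 => ?_⟩
    have h6 := h2 i x h3 h4 h5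
    rcases Nat.lt_or_ge i (Nat.find hb) with h7 | h7
    · omega
    · have : i = Nat.find hb := by omega
      rw [this] at h5
      exact absurd h5 (hc2 x h3 h4)
  have hJlt : J < j1 := by
    rcases hJm with h1 | ⟨i, h1, h2, h3⟩
    · omega
    · have h4 := h.bd _ _ h3
      by_contra h5
      have h6 : J = j1 := by omega
      rw [h6] at h3
      have := hR p i hp1 hp2 hp3 h1 (by omega) h3
      omega
  have hIlt : I < i1 := by
    rcases hIm with h1 | ⟨x, h1, h2, h3⟩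
    · omega
    · have h4 := h.bd _ _ h3
      by_contra h5
      have h6 : I = i1 := by omega
      rw [h6] at h3
      have := hK k x hk1 hk2 hk3 h1 (by omega) h3
      omega
  have hpl := h.rowleaf hp3 (Or.inl rfl)
  have hkl := h.colleaf hk3 (Or.inl rfl)
  have hw := h.toWin.sub (k0 := i0) (k1 := I) (l0 := j0) (l1 := J) le_rfl (by omega) le_rfl
    (by omega) (by
      intro i x h1 h2 h3
      have hb := h.bd _ _ h3
      refine ⟨hb.2.2.1, ?_⟩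
      rcases Nat.lt_trichotomy i p with h4 | h4 | h4
      · exact hJr i x h1 h4 h3
      · rw [h4] at h3
        have := hpl x h3
        omega
      · rcases hIm with h5 | ⟨y, h5, h6, h7⟩
        · omega
        · by_contra h8
          exact h.pb _ _ _ _ _ _ _ _ hk3 hp3 h3 h7 hp1 h4 h2 h5 h6 (by omega)) (by
      intro i x h1 h2 h3
      have hb := h.bd _ _ h3
      refine ⟨hb.1, ?_⟩
      rcases Nat.lt_trichotomy x k with h4 | h4 | h4
      · exact hIr i x h1 h4 h3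
      · rw [h4] at h3
        have := hkl i h3
        omega
      · rcases hJm with h5 | ⟨y, h5, h6, h7⟩
        · omega
        · by_contra h8
          exact h.pa _ _ _ _ _ _ _ _ hk3 h7 hp3 h3 h5 h6 (by omega) hk1 h4 h2)
  have hcard : (S.filter (fun a => i0 ≤ a.1 ∧ a.1 ≤ I ∧ j0 ≤ a.2 ∧ a.2 ≤ J)).card ≤ S.card :=
    Finset.card_le_card (Finset.filter_subset _ _)
  have hsm : ¬ (i0 + 3 ≤ I ∨ j0 + 3 ≤ J) := by
    intro h1
    clear hJm hIm hJr hIr hpm hkm hpl hkl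
    have e1 : i0 < I := by omega
    have e2 : j0 < J := by omega
    have e3 : (I - i0) + (J - j0) + (S.filter (fun a => i0 ≤ a.1 ∧ a.1 ≤ I ∧ j0 ≤ a.2 ∧
        a.2 ≤ J)).card < n := by omega
    exact hn _ _ _ _ _ hw e1 e2 h1 e3
  have f1 := h.far _ _ _ _ hp3 hk3 (by omega)
  unfold nd at f1
  rcases Nat.lt_or_ge (i0 + 1) p with h1 | h1
  · -- row `i0 + 1`
    obtain ⟨x, hx⟩ := h.row (i0 + 1) (by omega) (by omega)
    have b1 := hJr _ _ (by omega) h1 hx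
    have b2 := h.bd _ _ hx
    have b3 : x ≠ j0 := by
      rintro rfl
      exact hpm _ h1 ⟨by omega, by omega, hx⟩
    have f2 := h.far _ _ _ _ hp3 hx (by omega)
    have f3 := h.far _ _ _ _ hk3 hx (by omega)
    unfold nd at f2 f3
    omega
  · obtain ⟨i, hi⟩ := h.col (j0 + 1) (by omega) (by omega)
    have b1 := hIr _ _ (by omega) (by omega) hi
    have b2 := h.bd _ _ hi
    have b3 : i ≠ i0 := by
      rintro rfl
      exact hkm (j0 + 1) (by omega) ⟨by omega, by omega, hi⟩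
    have f2 := h.far _ _ _ _ hp3 hi (by omega)
    have f3 := h.far _ _ _ _ hk3 hi (by omega)
    unfold nd at f2 f3
    omega

/-- removal of a point from a row and a column which keep a point -/
theorem Win.erase (h : Win S i0 i1 j0 j1) {i x : ℕ}
    (h1 : i0 < i → i < i1 → ∃ y, (i, y) ∈ S ∧ y ≠ x)
    (h2 : j0 < x → x < j1 → ∃ j, (j, x) ∈ S ∧ j ≠ i) : Win (S.erase (i, x)) i0 i1 j0 j1 := by
  refine ⟨?_, ?_, ?_, ?_, ?_, ?_⟩
  · intro r y hy
    exact h.bd _ _ (Finset.mem_of_mem_erase hy)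
  · intro r h3 h4
    by_cases h5 : r = i
    · rw [h5] at h3 h4 ⊢
      obtain ⟨y, hy, hyx⟩ := h1 h3 h4
      exact ⟨y, Finset.mem_erase.2 ⟨by simp [hyx], hy⟩⟩
    · obtain ⟨y, hy⟩ := h.row r h3 h4
      exact ⟨y, Finset.mem_erase.2 ⟨by simp [h5], hy⟩⟩
  · intro y h3 h4
    by_cases h5 : y = x
    · rw [h5] at h3 h4 ⊢
      obtain ⟨j, hy, hyx⟩ := h2 h3 h4
      exact ⟨j, Finset.mem_erase.2 ⟨by simp [hyx], hy⟩⟩
    · obtain ⟨j, hy⟩ := h.col y h3 h4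
      exact ⟨j, Finset.mem_erase.2 ⟨by simp [h5], hy⟩⟩
  · intro r y j z m1 m2
    exact h.far _ _ _ _ (Finset.mem_of_mem_erase m1) (Finset.mem_of_mem_erase m2)
  · intro r1 r2 r3 r4 x1 x2 x3 x4 m1 m2 m3 m4
    exact h.pa _ _ _ _ _ _ _ _ (Finset.mem_of_mem_erase m1) (Finset.mem_of_mem_erase m2)
      (Finset.mem_of_mem_erase m3) (Finset.mem_of_mem_erase m4)
  · intro r1 r2 r3 r4 x1 x2 x3 x4 m1 m2 m3 m4
    exact h.pb _ _ _ _ _ _ _ _ (Finset.mem_of_mem_erase m1) (Finset.mem_of_mem_erase m2)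
      (Finset.mem_of_mem_erase m3) (Finset.mem_of_mem_erase m4)

/-- the four boundary lines are used -/
theorem Win.stp {n : ℕ} (hn : NoWin n) (h : Win S i0 i1 j0 j1)
    (hc : (i1 - i0) + (j1 - j0) + S.card ≤ n) (hi : i0 + 3 ≤ i1) (hj : j0 + 3 ≤ j1) :
    Stp S i0 i1 j0 j1 := by
  classical
  have hcard : ∀ (P : ℕ × ℕ → Prop) [DecidablePred P], (S.filter P).card ≤ S.card :=
    fun P _ => Finset.card_le_card (Finset.filter_subset _ _)
  refine ⟨h, hi, hj, ?_, ?_, ?_, ?_, ?_⟩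
  · intro i x hx
    by_contra hcon
    push Not at hcon
    obtain ⟨h1, h2⟩ := hcon
    have h3 := Finset.card_erase_lt_of_mem hx
    refine hn _ _ _ _ _ (h.erase (i := i) (x := x) ?_ ?_) (by omega) (by omega) (Or.inl hi)
      (by omega)
    · intro h4 h5
      obtain ⟨y, hy, hyx⟩ := h1 h4 h5
      exact ⟨y, hy, hyx⟩
    · intro h4 h5
      obtain ⟨y, hy, hyx⟩ := h2 h4 h5
      exact ⟨y, hy, hyx⟩
  · by_contra hcon
    have hw := h.sub (k0 := i0) (k1 := i1) (l0 := j0 + 1) (l1 := j1) le_rfl le_rfl (by omega)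
      le_rfl (by
        intro i x h1 h2 h3
        have hb := h.bd _ _ h3
        refine ⟨?_, by omega⟩
        by_contra h4
        have h5 : x = j0 := by omega
        rw [h5] at h3
        exact hcon ⟨i, h1, h2, h3⟩) (by
        intro i x h1 h2 h3
        have hb := h.bd _ _ h3
        omega)
    have := hcard (fun a => i0 ≤ a.1 ∧ a.1 ≤ i1 ∧ j0 + 1 ≤ a.2 ∧ a.2 ≤ j1)
    exact hn _ _ _ _ _ hw (by omega) (by omega) (Or.inl hi) (by omega)
  · by_contra hcon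
    have hw := h.sub (k0 := i0) (k1 := i1) (l0 := j0) (l1 := j1 - 1) le_rfl le_rfl (by omega)
      (by omega) (by
        intro i x h1 h2 h3
        have hb := h.bd _ _ h3
        refine ⟨by omega, ?_⟩
        by_contra h4
        have h5 : x = j1 := by omega
        rw [h5] at h3
        exact hcon ⟨i, h1, h2, h3⟩) (by
        intro i x h1 h2 h3
        have hb := h.bd _ _ h3
        omega)
    have := hcard (fun a => i0 ≤ a.1 ∧ a.1 ≤ i1 ∧ j0 ≤ a.2 ∧ a.2 ≤ j1 - 1)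
    exact hn _ _ _ _ _ hw (by omega) (by omega) (Or.inl hi) (by omega)
  · by_contra hcon
    have hw := h.sub (k0 := i0 + 1) (k1 := i1) (l0 := j0) (l1 := j1) (by omega) le_rfl le_rfl
      le_rfl (by
        intro i x h1 h2 h3
        have hb := h.bd _ _ h3
        omega) (by
        intro i x h1 h2 h3
        have hb := h.bd _ _ h3
        refine ⟨?_, by omega⟩
        by_contra h4
        have h5 : i = i0 := by omega
        rw [h5] at h3
        exact hcon ⟨x, h1, h2, h3⟩)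
    have := hcard (fun a => i0 + 1 ≤ a.1 ∧ a.1 ≤ i1 ∧ j0 ≤ a.2 ∧ a.2 ≤ j1)
    exact hn _ _ _ _ _ hw (by omega) (by omega) (Or.inr hj) (by omega)
  · by_contra hcon
    have hw := h.sub (k0 := i0) (k1 := i1 - 1) (l0 := j0) (l1 := j1) (by omega) (by omega) le_rfl
      le_rfl (by
        intro i x h1 h2 h3
        have hb := h.bd _ _ h3
        omega) (by
        intro i x h1 h2 h3
        have hb := h.bd _ _ h3
        refine ⟨by omega, ?_⟩
        by_contra h4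
        have h5 : i = i1 := by omega
        rw [h5] at h3
        exact hcon ⟨x, h1, h2, h3⟩)
    have := hcard (fun a => i0 ≤ a.1 ∧ a.1 ≤ i1 - 1 ∧ j0 ≤ a.2 ∧ a.2 ≤ j1)
    exact hn _ _ _ _ _ hw (by omega) (by omega) (Or.inr hj) (by omega)

theorem step {n : ℕ} (hn : NoWin n) : NoWin (n + 1) := by
  classical
  intro S i0 i1 j0 j1 h hi hj hij hc
  rcases Nat.lt_or_ge i1 (i0 + 3) with h1 | h1
  · exact h.swap.thin hi (by omega) (by omega)
  rcases Nat.lt_or_ge j1 (j0 + 3) with h2 | h2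
  · exact h.thin hj (by omega) (by omega)
  have hs := h.stp hn (by omega) h1 h2
  obtain ⟨p, hp1, hp2, hp3⟩ := hs.hl
  obtain ⟨q, hq1, hq2, hq3⟩ := hs.hr
  obtain ⟨k, hk1, hk2, hk3⟩ := hs.ht
  obtain ⟨l, hl1, hl2, hl3⟩ := hs.hb
  -- rows at the left and the right boundary are different
  have hpq : ∀ p q, (p, j0) ∈ S → (q, j1) ∈ S → p ≠ q := by
    intro p q m1 m2 he
    rw [he] at m1
    have := hs.rowleaf m1 (Or.inl rfl) _ m2
    omega
  have hkl : ∀ k l, (i0, k) ∈ S → (i1, l) ∈ S → k ≠ l := by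
    intro k l m1 m2 he
    rw [he] at m1
    have := hs.colleaf m1 (Or.inl rfl) _ m2
    omega
  have ha : ∀ p q k l, i0 < p → p < i1 → (p, j0) ∈ S → i0 < q → q < i1 → (q, j1) ∈ S →
      j0 < k → k < j1 → (i0, k) ∈ S → j0 < l → l < j1 → (i1, l) ∈ S → p < q → k < l := by
    intro p q k l a1 a2 a3 b1 b2 b3 c1 c2 c3 d1 d2 d3 h3
    have := hkl k l c3 d3
    by_contra h4
    exact h.pb _ _ _ _ _ _ _ _ c3 a3 b3 d3 a1 h3 b2 d1 (by omega) c2
  have hb : ∀ p q k l, i0 < p → p < i1 → (p, j0) ∈ S → i0 < q → q < i1 → (q, j1) ∈ S →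
      j0 < k → k < j1 → (i0, k) ∈ S → j0 < l → l < j1 → (i1, l) ∈ S → q < p → l < k := by
    intro p q k l a1 a2 a3 b1 b2 b3 c1 c2 c3 d1 d2 d3 h3
    have := hkl k l c3 d3
    by_contra h4
    exact h.pa _ _ _ _ _ _ _ _ c3 b3 a3 d3 b1 h3 a2 c1 (by omega) d2
  rcases Nat.lt_trichotomy p q with h3 | h3 | h3
  · have h4 := ha p q k l hp1 hp2 hp3 hq1 hq2 hq3 hk1 hk2 hk3 hl1 hl2 hl3 h3
    refine hs.inc hn (by omega) ?_ ?_
    · intro p' q' a1 a2 a3 b1 b2 b3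
      have h5 := hpq p' q' a3 b3
      by_contra h6
      have := hb p' q' k l a1 a2 a3 b1 b2 b3 hk1 hk2 hk3 hl1 hl2 hl3 (by omega)
      omega
    · intro k' l' a1 a2 a3 b1 b2 b3
      exact ha p q k' l' hp1 hp2 hp3 hq1 hq2 hq3 a1 a2 a3 b1 b2 b3 h3
  · exact hpq p q hp3 hq3 h3
  · have h4 := hb p q k l hp1 hp2 hp3 hq1 hq2 hq3 hk1 hk2 hk3 hl1 hl2 hl3 h3
    have hcd : (S.image (flp j0 j1)).card ≤ S.card := Finset.card_image_le
    have hm := mem_flp h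
    have hf := h.flip.stp hn (by omega) h1 h2
    refine hf.inc hn (by omega) ?_ ?_
    · intro p' q' a1 a2 a3 b1 b2 b3
      have a4 := ((hm _ _).1 a3).2
      have b4 := ((hm _ _).1 b3).2
      have e1 : j0 + j1 - j0 = j1 := by omega
      have e2 : j0 + j1 - j1 = j0 := by omega
      rw [e1] at a4
      rw [e2] at b4
      have h5 := hpq q' p' b4 a4
      by_contra h6
      have := ha q' p' k l b1 b2 b4 a1 a2 a4 hk1 hk2 hk3 hl1 hl2 hl3 (by omega)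
      omega
    · intro k' l' a1 a2 a3 b1 b2 b3
      have a4 := ((hm _ _).1 a3).2
      have b4 := ((hm _ _).1 b3).2
      have := hb p q _ _ hp1 hp2 hp3 hq1 hq2 hq3 (by omega) (by omega) a4 (by omega) (by omega) b4
        h3
      omega

theorem noWin : ∀ n, NoWin n
  | 0 => fun _ _ _ _ _ _ _ _ _ h => absurd h (Nat.not_lt_zero _)
  | n + 1 => step (noWin n)

/-- **Windows.** A window with at least two interior rows or two interior columns does not exist. -/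
theorem Win.false (h : Win S i0 i1 j0 j1) (hi : i0 < i1) (hj : j0 < j1)
    (hij : i0 + 3 ≤ i1 ∨ j0 + 3 ≤ j1) : False :=
  noWin _ _ _ _ _ _ h hi hj hij (Nat.lt_succ_self _)

end Pool.Agent.V8H16.TC
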